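import Mathlib

set_option autoImplicit false

namespace Pool.Agent.H244Z.CB

/-- `E` is an aperiodic countable Borel equivalence relation: an equivalence relation which is a
Borel subset of `X × X` and all of whose classes are countable and infinite. -/
structure IsAperiodicCBER {X : Type} [MeasurableSpace X] (E : X → X → Prop) : Prop where
  equiv : Equivalence E
  borel : MeasurableSet {p : X × X | E p.1 p.2}
  countable : ∀ x, {y | E x y}.Countable
  infinite : ∀ x, {y | E x y}.Infinite

/-- `E` is smooth: some Borel set meets every class in exactly one point. -/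
def IsSmooth {X : Type} [MeasurableSpace X] (E : X → X → Prop) : Prop :=
  ∃ T : Set X, MeasurableSet T ∧ ∀ x, ∃! t, t ∈ T ∧ E x t

/-- `E` and `F` are Borel isomorphic. -/
def BorelIso {X Y : Type} [MeasurableSpace X] [MeasurableSpace Y] (E : X → X → Prop)
    (F : Y → Y → Prop) : Prop :=
  ∃ f : X ≃ᵐ Y, ∀ x x', E x x' ↔ F (f x) (f x')

/-- every class of `F` is dense. -/
def IsMinimalRel {Y : Type} [TopologicalSpace Y] (F : Y → Y → Prop) : Prop :=
  ∀ y, Dense {y' | F y y'}

end Pool.Agent.H244Z.CB
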