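import Mathlib

set_option autoImplicit false

namespace Pool.Agent.H244Z.CB

open Set Filter Topology TopologicalSpace MeasureTheory

/-- one refinement step -/
theorem zstep {X : Type} [m : MeasurableSpace X] [Nonempty X] {ι κ : Type} [Countable ι]
    [Countable κ] (γ : ι → X → X) (hγ : ∀ i, Measurable (γ i)) (lam : κ → X → ℕ)
    (hl : ∀ i, Measurable (lam i)) (t : TopologicalSpace X) (hp : @PolishSpace X t)
    (hb : @BorelSpace X t m) :
    ∃ (k : ℕ → X → ℕ) (t' : TopologicalSpace X), @PolishSpace X t' ∧ @BorelSpace X t' m ∧ t' ≤ t ∧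
      (∀ n, @Continuous X ℕ t' _ (k n)) ∧ (∀ i, @Continuous X X t' t (γ i)) ∧
      (∀ i, @Continuous X ℕ t' _ (lam i)) ∧
      ∀ F : Filter X, F.NeBot → (∀ n, ∃ c, ∀ᶠ x in F, k n x = c) → ∃ x, F ≤ @nhds X t x := by
  classical
  letI := t
  letI := upgradeIsCompletelyMetrizable X
  obtain ⟨u, hu⟩ := TopologicalSpace.exists_dense_seq X
  have hex : ∀ (n : ℕ) (x : X), ∃ j, dist x (u j) < 1 / ((n : ℝ) + 1) := fun n x =>
    hu.exists_dist_lt x (by positivity)
  let k : ℕ → X → ℕ := fun n x => Nat.find (hex n x)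
  have hk : ∀ n, Measurable (k n) := by
    intro n
    refine measurable_find (hex n) fun j => ?_
    exact (isOpen_lt (continuous_id.dist continuous_const) continuous_const).measurableSet
  let Φ : X → (ℕ → ℕ) × (ι → X) × (κ → ℕ) := fun x =>
    (fun n => k n x, fun i => γ i x, fun i => lam i x)
  have hΦ : Measurable Φ :=
    (measurable_pi_lambda _ hk).prodMk
      ((measurable_pi_lambda _ hγ).prodMk (measurable_pi_lambda _ hl))
  have c1 : ∀ n, Continuous (fun p : (ℕ → ℕ) × (ι → X) × (κ → ℕ) => p.1 n) := fun n => by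
    fun_prop
  have c2 : ∀ n, Continuous (fun p : (ℕ → ℕ) × (ι → X) × (κ → ℕ) => p.2.1 n) := fun n => by
    fun_prop
  have c3 : ∀ n, Continuous (fun p : (ℕ → ℕ) × (ι → X) × (κ → ℕ) => p.2.2 n) := fun n => by
    fun_prop
  obtain ⟨t', ht't, hc, hp'⟩ := hΦ.exists_continuous
  refine ⟨k, t', hp', ?_, ht't, ?_, ?_, ?_, ?_⟩
  · refine @BorelSpace.mk X t' m ?_
    rw [borel_eq_borel_of_le hp' hp ht't]
    exact hb.measurable_eq
  · intro n
    exact @Continuous.comp X _ ℕ t' (_) (_) Φ (fun p => p.1 n) (c1 n) hc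
  · intro i
    exact @Continuous.comp X _ X t' (_) (_) Φ (fun p => p.2.1 i) (c2 i) hc
  · intro i
    exact @Continuous.comp X _ ℕ t' (_) (_) Φ (fun p => p.2.2 i) (c3 i) hc
  · intro F hF h
    have hC : Cauchy F := by
      rw [Metric.cauchy_iff]
      refine ⟨hF, fun ε hε => ?_⟩
      obtain ⟨n, hn⟩ := exists_nat_one_div_lt (half_pos hε)
      obtain ⟨c, hc⟩ := h n
      refine ⟨_, hc, fun x hx y hy => ?_⟩
      have h1 := Nat.find_spec (hex n x)
      have h2 := Nat.find_spec (hex n y)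
      have e1 : Nat.find (hex n x) = c := hx
      have e2 : Nat.find (hex n y) = c := hy
      rw [e1] at h1
      rw [e2] at h2
      have := dist_triangle_right x y (u c)
      linarith
    exact CompleteSpace.complete hC

/-- A standard Borel space carries a Polish topology with the same Borel sets which embeds as a
closed subset of the Baire space and makes countably many given Borel maps continuous. -/
theorem exists_rho {X : Type} [m : MeasurableSpace X] [StandardBorelSpace X] [Nonempty X]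
    {ι κ : Type} [Countable ι] [Countable κ] (γ : ι → X → X) (hγ : ∀ i, Measurable (γ i))
    (lam : κ → X → ℕ) (hl : ∀ i, Measurable (lam i)) :
    ∃ (t : TopologicalSpace X) (_ : PolishSpace X) (_ : BorelSpace X) (ρ : X → ℕ → ℕ),
      IsClosedEmbedding ρ ∧ (∀ i, Continuous (γ i)) ∧ (∀ i, Continuous (lam i)) := by
  classical
  let S := {t : TopologicalSpace X // @PolishSpace X t ∧ @BorelSpace X t m}
  obtain ⟨t0, hb0, hp0⟩ := (inferInstance : StandardBorelSpace X).polish
  have hs : ∀ s : S, ∃ (k : ℕ → X → ℕ) (s' : S), s'.1 ≤ s.1 ∧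
      (∀ n, @Continuous X ℕ s'.1 _ (k n)) ∧ (∀ i, @Continuous X X s'.1 s.1 (γ i)) ∧
      (∀ i, @Continuous X ℕ s'.1 _ (lam i)) ∧
      ∀ F : Filter X, F.NeBot → (∀ n, ∃ c, ∀ᶠ x in F, k n x = c) → ∃ x, F ≤ @nhds X s.1 x := by
    intro s
    obtain ⟨k, t', h1, h2, h3⟩ := zstep γ hγ lam hl s.1 s.2.1 s.2.2
    exact ⟨k, ⟨t', h1, h2⟩, h3⟩
  choose K nx hle hK hγc hlc hcomp using hs
  let T : ℕ → S := fun n => nx^[n] ⟨t0, hp0, hb0⟩
  have hT : ∀ n, T (n + 1) = nx (T n) := fun n => Function.iterate_succ_apply' _ _ _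
  have hT0 : ∀ n, (T n).1 ≤ (T 0).1 := by
    intro n
    induction n with
    | zero => exact le_rfl
    | succ n ih => rw [hT]; exact (hle _).trans ih
  let τ : TopologicalSpace X := ⨅ n, (T n).1
  have hτp : @PolishSpace X τ := PolishSpace.iInf ⟨0, hT0⟩ fun n => (T n).2.1
  have hτn : ∀ n, τ ≤ (T n).1 := fun n => iInf_le _ n
  have hτn' : ∀ n, τ ≤ (nx (T n)).1 := fun n => by rw [← hT]; exact hτn _
  have hτb : @BorelSpace X τ m := by
    refine @BorelSpace.mk X τ m ?_
    rw [borel_eq_borel_of_le hτp (T 0).2.1 (hτn 0)]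
    exact (T 0).2.2.measurable_eq
  let ρ : X → ℕ → ℕ := fun x n => K (T n.unpair.1) n.unpair.2 x
  have hρc : @Continuous X (ℕ → ℕ) τ _ ρ := by
    letI := τ
    refine continuous_pi fun n => ?_
    exact continuous_le_dom (hτn' _) (hK _ _)
  have key : ∀ (F : Filter X), F.NeBot → ∀ z : ℕ → ℕ, Tendsto ρ F (𝓝 z) →
      ∃ x, F ≤ @nhds X τ x := by
    intro F hF z hz
    have h1 : ∀ n, ∃ x, F ≤ @nhds X (T n).1 x := by
      intro n
      refine hcomp (T n) F hF fun j => ⟨z (Nat.pair n j), ?_⟩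
      have := (tendsto_pi_nhds.1 hz) (Nat.pair n j)
      rw [nhds_discrete, tendsto_pure] at this
      simpa [ρ] using this
    choose x hx using h1
    refine ⟨x 0, ?_⟩
    rw [nhds_iInf]
    refine le_iInf fun n => ?_
    have : x n = x 0 := by
      letI := (T 0).1
      haveI := (T 0).2.1
      exact tendsto_nhds_unique (l := F) (f := id) ((hx n).trans (nhds_mono (hT0 n))) (hx 0)
    rw [← this]
    exact hx n
  refine ⟨τ, hτp, hτb, ρ, ?_, ?_, ?_⟩
  · letI := τ
    have hconv : ∀ (F : Filter X), F.NeBot → ∀ x, Tendsto ρ F (𝓝 (ρ x)) → F ≤ 𝓝 x := by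
      intro F hF x hx
      obtain ⟨x', hx'⟩ := key (F ⊔ pure x) inferInstance (ρ x)
        (hx.sup (tendsto_pure_nhds ρ x))
      have h1 : pure x ≤ 𝓝 x' := le_sup_right.trans hx'
      have h2 : x = x' := tendsto_nhds_unique (l := pure x) (f := id) (pure_le_nhds x) h1
      rw [h2]
      exact le_sup_left.trans hx'
    refine ⟨⟨⟨?_⟩, ?_⟩, ?_⟩
    · refine le_antisymm (continuous_iff_le_induced.1 hρc) ?_
      refine le_of_nhds_le_nhds fun x => ?_
      rw [nhds_induced]
      haveI : (comap ρ (𝓝 (ρ x))).NeBot := by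
        refine neBot_of_le (f := pure x) ?_
        exact (tendsto_pure_nhds ρ x).le_comap
      exact hconv _ inferInstance x tendsto_comap
    · intro x y hxy
      have h1 := hconv (pure y) inferInstance x (by rw [hxy]; exact tendsto_pure_nhds ρ y)
      exact (tendsto_nhds_unique (l := pure y) (f := id) (pure_le_nhds y) h1).symm
    · rw [← closure_subset_iff_isClosed]
      intro z hz
      have hne : (comap ρ (𝓝 z)).NeBot := by
        rw [comap_neBot_iff_frequently]
        exact mem_closure_iff_frequently.1 hz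
      obtain ⟨x, hx⟩ := key _ hne z tendsto_comap
      exact ⟨x, tendsto_nhds_unique ((hρc.tendsto x).mono_left hx) tendsto_comap⟩
  · intro i
    refine continuous_iInf_rng.2 fun n => ?_
    exact continuous_le_dom (hτn' n) (hγc (T n) i)
  · intro i
    exact continuous_le_dom (hτn' 0) (hlc (T 0) i)

end Pool.Agent.H244Z.CB
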