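import Mathlib
import Pool.Agent.Helper281.Sc.LN
import Pool.Agent.H244Z.CB.Defs
import Pool.Agent.H244Z.CB.Zero

set_option autoImplicit false

namespace Pool.Agent.H244Z.CB

open Set Filter Topology TopologicalSpace MeasureTheory

/-- A countable Borel equivalence relation is the union of the graphs of Borel involutions. -/
theorem exists_invol {X : Type} [MeasurableSpace X] [StandardBorelSpace X] {E : X → X → Prop}
    (hE : Equivalence E) (hm : MeasurableSet {p : X × X | E p.1 p.2})
    (hc : ∀ x, {y | E x y}.Countable) :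
    ∃ g : ℕ → X → X, (∀ i, Measurable (g i)) ∧ (∀ i x, g i (g i x) = x) ∧ (∀ x, g 0 x = x) ∧
      ∀ x y, E x y ↔ ∃ i, g i x = y := by
  classical
  obtain ⟨δ, hδ, hδE⟩ := Pool.Agent.Helper281.LN.cber_enum E hE hm hc
  obtain ⟨r, hr, hinj⟩ := MeasurableSpace.measurable_injection_nat_bool_of_countablySeparated X
  let A : ℕ → ℕ → ℕ → Set X := fun n m j =>
    {x | r x j = true ∧ r (δ n x) j = false ∧ δ m (δ n x) = x}
  let B : ℕ → ℕ → ℕ → Set X := fun n m j =>
    {x | r x j = false ∧ r (δ m x) j = true ∧ δ n (δ m x) = x}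
  have hrj : ∀ j, Measurable fun x => r x j := fun j => (measurable_pi_apply j).comp hr
  have hA : ∀ n m j, MeasurableSet (A n m j) := fun n m j =>
    (measurableSet_eq_fun (hrj j) measurable_const).inter
      ((measurableSet_eq_fun ((hrj j).comp (hδ n)) measurable_const).inter
        (measurableSet_eq_fun ((hδ m).comp (hδ n)) measurable_id))
  have hB : ∀ n m j, MeasurableSet (B n m j) := fun n m j =>
    (measurableSet_eq_fun (hrj j) measurable_const).inter
      ((measurableSet_eq_fun ((hrj j).comp (hδ m)) measurable_const).inter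
        (measurableSet_eq_fun ((hδ n).comp (hδ m)) measurable_id))
  let G : ℕ → ℕ → ℕ → X → X := fun n m j x =>
    if x ∈ A n m j then δ n x else if x ∈ B n m j then δ m x else x
  have hG : ∀ n m j, Measurable (G n m j) := fun n m j =>
    Measurable.ite (hA n m j) (hδ n) (Measurable.ite (hB n m j) (hδ m) measurable_id)
  have hAB : ∀ n m j x, x ∈ B n m j → x ∉ A n m j := by
    intro n m j x h1 h2
    have := h1.1.symm.trans h2.1
    simp at this
  have hGi : ∀ n m j x, G n m j (G n m j x) = x := by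
    intro n m j x
    by_cases h1 : x ∈ A n m j
    · have e : G n m j x = δ n x := if_pos h1
      have h2 : δ n x ∈ B n m j := ⟨h1.2.1, by rw [h1.2.2]; exact h1.1, by rw [h1.2.2]⟩
      rw [e]
      show (if δ n x ∈ A n m j then δ n (δ n x) else
        if δ n x ∈ B n m j then δ m (δ n x) else δ n x) = x
      rw [if_neg (hAB _ _ _ _ h2), if_pos h2]
      exact h1.2.2
    · by_cases h2 : x ∈ B n m j
      · have e : G n m j x = δ m x := by
          show (if x ∈ A n m j then δ n x else if x ∈ B n m j then δ m x else x) = _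
          rw [if_neg h1, if_pos h2]
        have h3 : δ m x ∈ A n m j := ⟨h2.2.1, by rw [h2.2.2]; exact h2.1, by rw [h2.2.2]⟩
        rw [e]
        show (if δ m x ∈ A n m j then δ n (δ m x) else
          if δ m x ∈ B n m j then δ m (δ m x) else δ m x) = x
        rw [if_pos h3]
        exact h2.2.2
      · have e : G n m j x = x := by
          show (if x ∈ A n m j then δ n x else if x ∈ B n m j then δ m x else x) = _
          rw [if_neg h1, if_neg h2]
        rw [e, e]
  have hGE : ∀ n m j x, E x (G n m j x) := by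
    intro n m j x
    show E x (if x ∈ A n m j then δ n x else if x ∈ B n m j then δ m x else x)
    split_ifs
    · exact (hδE _ _).2 ⟨n, rfl⟩
    · exact (hδE _ _).2 ⟨m, rfl⟩
    · exact hE.refl x
  let g : ℕ → X → X := fun k => match k with
    | 0 => id
    | k + 1 => G k.unpair.1 k.unpair.2.unpair.1 k.unpair.2.unpair.2
  refine ⟨g, ?_, ?_, fun x => rfl, ?_⟩
  · rintro (_ | k)
    · exact measurable_id
    · exact hG _ _ _
  · rintro (_ | k) x
    · rfl
    · exact hGi _ _ _ x
  · intro x y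
    constructor
    · intro h
      by_cases hxy : x = y
      · exact ⟨0, hxy⟩
      obtain ⟨n, hn⟩ := (hδE x y).1 h
      obtain ⟨m, hm⟩ := (hδE y x).1 (hE.symm h)
      have : r x ≠ r y := fun e => hxy (hinj e)
      obtain ⟨j, hj⟩ := Function.ne_iff.1 this
      cases hx : r x j with
      | true =>
        have hy : r y j = false := by simpa [hx] using hj
        refine ⟨Nat.pair n (Nat.pair m j) + 1, ?_⟩
        have h1 : x ∈ A n m j := ⟨hx, by rw [hn]; exact hy, by rw [hn, hm]⟩
        simp only [g, Nat.unpair_pair]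
        exact (if_pos h1).trans hn
      | false =>
        have hy : r y j = true := by simpa [hx] using hj
        refine ⟨Nat.pair m (Nat.pair n j) + 1, ?_⟩
        have h1 : x ∈ B m n j := ⟨hx, by rw [hn]; exact hy, by rw [hn, hm]⟩
        simp only [g, Nat.unpair_pair]
        show (if x ∈ A m n j then δ m x else if x ∈ B m n j then δ n x else x) = _
        rw [if_neg (hAB _ _ _ _ h1), if_pos h1, hn]
    · rintro ⟨_ | k, rfl⟩
      · exact hE.refl x
      · exact hGE _ _ _ x

/-- if every point is isolated in its class then the relation is smooth -/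
theorem smooth_of_isolated {X : Type} [MeasurableSpace X] [TopologicalSpace X] [PolishSpace X]
    [BorelSpace X] {E : X → X → Prop} (hE : Equivalence E) (g : ℕ → X → X)
    (hg : ∀ i, Measurable (g i)) (hgE : ∀ x y, E x y ↔ ∃ i, g i x = y)
    (h : ∀ x, ∃ U, IsOpen U ∧ x ∈ U ∧ ∀ y ∈ U, E x y → y = x) : IsSmooth E := by
  classical
  rcases isEmpty_or_nonempty X with hX | hX
  · exact ⟨∅, MeasurableSet.empty, fun x => hX.elim x⟩
  obtain ⟨b, hbc, -, hb⟩ := exists_countable_basis X
  have hbn : b.Nonempty := by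
    obtain ⟨W, hW, -⟩ := hb.exists_subset_of_mem_open (mem_univ hX.some) isOpen_univ
    exact ⟨W, hW⟩
  obtain ⟨U, hU⟩ := hbc.exists_eq_range hbn
  have hUo : ∀ k, IsOpen (U k) := fun k => hb.isOpen (hU ▸ ⟨k, rfl⟩)
  let S : ℕ → Set X := fun k => {x | x ∈ U k ∧ ∀ i, g i x ∈ U k → g i x = x}
  have hS : ∀ k, MeasurableSet (S k) := by
    intro k
    refine (hUo k).measurableSet.inter ?_
    show MeasurableSet {x | ∀ i, g i x ∈ U k → g i x = x}
    rw [Set.setOf_forall]
    refine MeasurableSet.iInter fun i => ?_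
    have : {x | g i x ∈ U k → g i x = x} = (g i ⁻¹' U k)ᶜ ∪ {x | g i x = x} := by
      ext x; simp [imp_iff_not_or]
    rw [this]
    exact (hg i (hUo k).measurableSet).compl.union (measurableSet_eq_fun (hg i) measurable_id)
  have hex : ∀ x, ∃ k, x ∈ S k := by
    intro x
    obtain ⟨V, hV, hxV, hVx⟩ := h x
    obtain ⟨W, hWb, hxW, hWV⟩ := hb.exists_subset_of_mem_open hxV hV
    rw [hU] at hWb
    obtain ⟨k, rfl⟩ := hWb
    exact ⟨k, hxW, fun i hi => hVx _ (hWV hi) ((hgE _ _).2 ⟨i, rfl⟩)⟩
  have huq : ∀ k x y, x ∈ S k → y ∈ S k → E x y → y = x := by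
    intro k x y hx hy hxy
    obtain ⟨i, rfl⟩ := (hgE _ _).1 hxy
    exact hx.2 i hy.1
  refine ⟨{x | ∃ k, x ∈ S k ∧ ∀ k' < k, ∀ i, g i x ∉ S k'}, ?_, ?_⟩
  · rw [Set.setOf_exists]
    refine MeasurableSet.iUnion fun k => (hS k).inter ?_
    show MeasurableSet {x | ∀ k' < k, ∀ i, g i x ∉ S k'}
    simp only [Set.setOf_forall]
    exact MeasurableSet.iInter fun k' => MeasurableSet.iInter fun _ =>
      MeasurableSet.iInter fun i => (hg i (hS k')).compl
  · intro x
    have hex' : ∃ k, ∃ y, E x y ∧ y ∈ S k := by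
      obtain ⟨k, hk⟩ := hex x
      exact ⟨k, x, hE.refl x, hk⟩
    obtain ⟨y, hxy, hy⟩ := Nat.find_spec hex'
    have hmin : ∀ z, E x z → ∀ k, z ∈ S k → Nat.find hex' ≤ k := fun z hz k hk =>
      Nat.find_min' hex' ⟨z, hz, hk⟩
    refine ⟨y, ⟨⟨_, hy, fun k' hk' i hi => ?_⟩, hxy⟩, ?_⟩
    · exact absurd (hmin _ (hE.trans hxy ((hgE _ _).2 ⟨i, rfl⟩)) _ hi) (not_le.2 hk')
    · rintro z ⟨⟨k, hk, hk'⟩, hxz⟩
      have h1 := hmin z hxz k hk
      have hzy : E z y := hE.trans (hE.symm hxz) hxy
      obtain ⟨i, hi⟩ := (hgE _ _).1 hzy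
      have h2 : k ≤ Nat.find hex' := by
        by_contra hlt
        exact hk' _ (not_le.1 hlt) i (by rw [hi]; exact hy)
      rw [← le_antisymm h1 h2] at hk
      exact huq _ _ _ hy hk (hE.symm hzy)

/-- words in the chosen homeomorphisms -/
def wd {X : Type} [TopologicalSpace X] (h : ℕ → X ≃ₜ X) (a : ℕ → Bool) : ℕ → X ≃ₜ X
  | 0 => 1
  | n + 1 => wd h a n * (if a n then h n else 1)

theorem ge_step {X : Type} [MetricSpace X] {E : X → X → Prop} (hE : Equivalence E)
    (g : ℕ → X ≃ₜ X) (hgE : ∀ x y, E x y ↔ ∃ i, g i x = y) (x : X)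
    (hx : ∀ ε > 0, ∃ y, y ≠ x ∧ E x y ∧ dist y x < ε) (n : ℕ) (W : Set (X ≃ₜ X)) (hW : W.Finite)
    (r : ℝ) (hr : 0 < r) :
    ∃ (h : X ≃ₜ X) (r' : ℝ), 0 < r' ∧ r' ≤ r ∧ (∀ z, E z (h z)) ∧
      (∀ z, dist z x ≤ r' → dist (h z) x ≤ r) ∧
      (∀ γ ∈ W, ∀ z, dist z x ≤ r' → dist (γ z) (γ x) ≤ 1 / ((n : ℝ) + 1) ∧
        dist (γ (h z)) (γ (h x)) ≤ 1 / ((n : ℝ) + 1)) ∧
      ∀ γ ∈ W, ∀ γ' ∈ W, ∀ i ≤ n, ∀ z z', dist z x ≤ r' → dist z' x ≤ r' →
        g i (γ z) ≠ γ' (h z') := by
  classical
  let B : Set X := {y | ∃ γ ∈ W, ∃ γ' ∈ W, ∃ i ≤ n, y = γ'.symm (g i (γ x))} \ {x}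
  have hB : B.Finite := by
    refine Finite.subset ?_ diff_subset
    have : {y | ∃ γ ∈ W, ∃ γ' ∈ W, ∃ i ≤ n, y = γ'.symm (g i (γ x))} =
        ⋃ γ ∈ W, ⋃ γ' ∈ W, ⋃ i ∈ Iic n, {γ'.symm (g i (γ x))} := by
      ext y; simp
    rw [this]
    exact hW.biUnion fun _ _ => hW.biUnion fun _ _ => (finite_Iic n).biUnion fun _ _ =>
      finite_singleton _
  have hBx : Bᶜ ∈ 𝓝 x := hB.isClosed.isOpen_compl.mem_nhds fun h => h.2 rfl
  obtain ⟨ε, hε, hεB⟩ := Metric.mem_nhds_iff.1 hBx
  obtain ⟨y, hyx, hxy, hy⟩ := hx (min ε r) (lt_min hε hr)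
  obtain ⟨k, hk⟩ := (hgE _ _).1 hxy
  have hyB : y ∉ B := hεB (lt_of_lt_of_le hy (min_le_left _ _))
  have hne : ∀ γ ∈ W, ∀ γ' ∈ W, ∀ i ≤ n, g i (γ x) ≠ γ' (g k x) := by
    intro γ hγ γ' hγ' i hi he
    apply hyB
    refine ⟨⟨γ, hγ, γ', hγ', i, hi, ?_⟩, hyx⟩
    rw [he, hk]
    simp
  have hpos : (0 : ℝ) < 1 / ((n : ℝ) + 1) := by positivity
  have ev : ∀ᶠ p : X × X in 𝓝 (x, x), dist (g k p.1) x ≤ r ∧
      (∀ γ ∈ W, dist (γ p.1) (γ x) ≤ 1 / ((n : ℝ) + 1) ∧
        dist (γ (g k p.1)) (γ (g k x)) ≤ 1 / ((n : ℝ) + 1)) ∧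
      ∀ γ ∈ W, ∀ γ' ∈ W, ∀ i ∈ Iic n, g i (γ p.1) ≠ γ' (g k p.2) := by
    refine Eventually.and ?_ (Eventually.and ?_ ?_)
    · have hc : Continuous fun p : X × X => dist (g k p.1) x := by fun_prop
      have : dist (g k (x, x).1) x < r := by
        simp only [hk]; exact lt_of_lt_of_le hy (min_le_right _ _)
      exact (hc.continuousAt.eventually_lt continuousAt_const this).mono fun p hp => hp.le
    · refine (eventually_all_finite hW).2 fun γ _ => Eventually.and ?_ ?_
      · have hc : Continuous fun p : X × X => dist (γ p.1) (γ x) := by fun_prop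
        have : dist (γ (x, x).1) (γ x) < 1 / ((n : ℝ) + 1) := by simpa using hpos
        exact (hc.continuousAt.eventually_lt continuousAt_const this).mono fun p hp => hp.le
      · have hc : Continuous fun p : X × X => dist (γ (g k p.1)) (γ (g k x)) := by fun_prop
        have : dist (γ (g k (x, x).1)) (γ (g k x)) < 1 / ((n : ℝ) + 1) := by simpa using hpos
        exact (hc.continuousAt.eventually_lt continuousAt_const this).mono fun p hp => hp.le
    · refine (eventually_all_finite hW).2 fun γ hγ => (eventually_all_finite hW).2 fun γ' hγ' =>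
        (eventually_all_finite (finite_Iic n)).2 fun i hi => ?_
      have ho : IsOpen {p : X × X | g i (γ p.1) ≠ γ' (g k p.2)} :=
        isOpen_ne_fun (by fun_prop) (by fun_prop)
      exact ho.mem_nhds (hne γ hγ γ' hγ' i hi)
  obtain ⟨δ, hδ, hδev⟩ := Metric.nhds_basis_closedBall.eventually_iff.1 ev
  have hin : ∀ z z', dist z x ≤ min δ r → dist z' x ≤ min δ r →
      (z, z') ∈ Metric.closedBall (x, x) δ := by
    intro z z' hz hz'
    rw [Metric.mem_closedBall, Prod.dist_eq]
    exact max_le (hz.trans (min_le_left _ _)) (hz'.trans (min_le_left _ _))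
  refine ⟨g k, min δ r, lt_min hδ hr, min_le_right _ _, fun z => (hgE _ _).2 ⟨k, rfl⟩,
    fun z hz => (hδev (hin z z hz hz)).1, fun γ hγ z hz => (hδev (hin z z hz hz)).2.1 γ hγ,
    fun γ hγ γ' hγ' i hi z z' hz hz' => (hδev (hin z z' hz hz')).2.2 γ hγ γ' hγ' i hi⟩

theorem ge_top {X : Type} [MetricSpace X] [CompleteSpace X] [MeasurableSpace X] [BorelSpace X]
    {E : X → X → Prop} (hE : Equivalence E)
    (g : ℕ → X ≃ₜ X) (hgi : ∀ i x, g i (g i x) = x) (hg0 : ∀ x, g 0 x = x)
    (hgE : ∀ x y, E x y ↔ ∃ i, g i x = y) (x : X)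
    (hx : ∀ ε > 0, ∃ y, y ≠ x ∧ E x y ∧ dist y x < ε) :
    ∃ θ : (ℕ → Bool) → X, Measurable θ ∧ Function.Injective θ ∧
      ∀ a b, E (θ a) (θ b) ↔ ∃ n, ∀ m ≥ n, a m = b m := by
  classical
  let S := {p : Set (X ≃ₜ X) × ℝ // p.1.Finite ∧ 0 < p.2}
  choose H R hR0 hRle hHE hHr hdiam hsep using
    fun (n : ℕ) (s : S) => ge_step hE g hgE x hx n s.1.1 s.2.1 s.1.2 s.2.2
  let nx : ℕ → S → S := fun n s =>
    ⟨(s.1.1 ∪ (fun γ => γ * H n s) '' s.1.1, R n s), s.2.1.union (s.2.1.image _), hR0 n s⟩
  let st : ℕ → S := fun n => Nat.rec ⟨({1}, 1), finite_singleton _, one_pos⟩ nx n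
  have hst : ∀ n, st (n + 1) = nx n (st n) := fun n => rfl
  let h : ℕ → X ≃ₜ X := fun n => H n (st n)
  let r : ℕ → ℝ := fun n => (st n).1.2
  have hr : ∀ n, r (n + 1) = R n (st n) := fun n => rfl
  have hr0 : ∀ n, 0 < r n := fun n => (st n).2.2
  have hwW : ∀ a n, wd h a n ∈ (st n).1.1 := by
    intro a n
    induction n with
    | zero => exact rfl
    | succ n ih =>
      rw [hst]
      cases ha : a n with
      | true => right; exact ⟨_, ih, by simp [wd, ha, h]⟩
      | false => left; simpa [wd, ha] using ih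
  have hwE : ∀ a n z, E z (wd h a n z) := by
    intro a n
    induction n with
    | zero => exact fun z => hE.refl z
    | succ n ih =>
      intro z
      cases ha : a n with
      | true =>
        have : wd h a (n + 1) z = wd h a n (h n z) := by simp [wd, ha]
        rw [this]
        exact hE.trans (hHE n (st n) z) (ih _)
      | false =>
        have : wd h a (n + 1) z = wd h a n z := by simp [wd, ha]
        rw [this]
        exact ih _
  have htail : ∀ a n m, n ≤ m → ∀ z, dist z x ≤ r m →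
      dist ((wd h a n).symm (wd h a m z)) x ≤ r n := by
    intro a n m hnm
    induction m, hnm using Nat.le_induction with
    | base => intro z hz; simpa using hz
    | succ m _ ih =>
      intro z hz
      cases ha : a m with
      | true =>
        have : wd h a (m + 1) z = wd h a m (h m z) := by simp [wd, ha]
        rw [this]
        exact ih _ (hHr m (st m) z hz)
      | false =>
        have : wd h a (m + 1) z = wd h a m z := by simp [wd, ha]
        rw [this]
        exact ih _ (hz.trans (hRle m (st m)))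
  have hd : ∀ a n z, dist z x ≤ r (n + 1) →
      dist (wd h a (n + 1) z) (wd h a (n + 1) x) ≤ 1 / ((n : ℝ) + 1) := by
    intro a n z hz
    cases ha : a n with
    | true =>
      have : ∀ z, wd h a (n + 1) z = wd h a n (h n z) := by simp [wd, ha]
      rw [this, this]
      exact (hdiam n (st n) _ (hwW a n) z hz).2
    | false =>
      have : ∀ z, wd h a (n + 1) z = wd h a n z := by simp [wd, ha]
      rw [this, this]
      exact (hdiam n (st n) _ (hwW a n) z hz).1
  have hcau : ∀ a, CauchySeq fun m => wd h a m x := by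
    intro a
    refine Metric.cauchySeq_iff'.2 fun ε hε => ?_
    obtain ⟨n, hn⟩ := exists_nat_one_div_lt hε
    refine ⟨n + 1, fun m hm => lt_of_le_of_lt ?_ hn⟩
    have := hd a n _ (htail a (n + 1) m hm x (by simpa using (hr0 m).le))
    simpa using this
  choose θ hθ using fun a => cauchySeq_tendsto_of_complete (hcau a)
  have hθt : ∀ a n, Tendsto (fun m => (wd h a n).symm (wd h a m x)) atTop
      (𝓝 ((wd h a n).symm (θ a))) := fun a n =>
    ((wd h a n).symm.continuous.tendsto _).comp (hθ a)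
  have hθr : ∀ a n, dist ((wd h a n).symm (θ a)) x ≤ r n := by
    intro a n
    refine le_of_tendsto ((hθt a n).dist tendsto_const_nhds) ?_
    filter_upwards [eventually_ge_atTop n] with m hm
    exact htail a n m hm x (by simpa using (hr0 m).le)
  have hsp : ∀ a b n i, i ≤ n → a n = false → b n = true → g i (θ a) ≠ θ b := by
    intro a b n i hi ha hb he
    refine hsep n (st n) _ (hwW a n) _ (hwW b n) i hi _ _ (hθr a (n + 1)) (hθr b (n + 1)) ?_
    have e1 : ∀ z, wd h a (n + 1) z = wd h a n z := by simp [wd, ha]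
    have e2 : ∀ z, wd h b (n + 1) z = wd h b n (h n z) := by simp [wd, hb]
    rw [← e1]
    refine Eq.trans ?_ (e2 _)
    simpa using he
  have hsp' : ∀ a b n i, i ≤ n → a n ≠ b n → g i (θ a) ≠ θ b := by
    intro a b n i hi hab he
    cases ha : a n with
    | false => exact hsp a b n i hi ha (by simpa [ha] using hab) he
    | true =>
      refine hsp b a n i hi (by simpa [ha] using hab) ha ?_
      rw [← he, hgi]
  refine ⟨θ, ?_, ?_, ?_⟩
  · have hm : ∀ m z, Measurable fun a => wd h a m z := by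
      intro m
      induction m with
      | zero => exact fun z => measurable_const
      | succ m ih =>
        intro z
        have : (fun a => wd h a (m + 1) z) =
            fun a => if a m = true then wd h a m (h m z) else wd h a m z := by
          funext a
          cases ha : a m <;> simp [wd, ha]
        rw [this]
        exact Measurable.ite (measurableSet_eq_fun (measurable_pi_apply m) measurable_const)
          (ih _) (ih _)
    exact measurable_of_tendsto_metrizable (fun m => hm m x) (tendsto_pi_nhds.2 hθ)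
  · intro a b hab
    by_contra hne
    obtain ⟨n, hn⟩ := Function.ne_iff.1 hne
    exact hsp' a b n 0 (Nat.zero_le _) hn (by rw [hg0, hab])
  · intro a b
    constructor
    · intro hab
      obtain ⟨i, hi⟩ := (hgE _ _).1 hab
      exact ⟨i, fun m hm => by
        by_contra hne
        exact hsp' a b m i hm hne hi⟩
    · rintro ⟨n, hn⟩
      have e : ∀ m, n ≤ m → ∀ z, (wd h a n).symm (wd h a m z) = (wd h b n).symm (wd h b m z) := by
        intro m hm
        induction m, hm using Nat.le_induction with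
        | base => intro z; simp
        | succ m hm ih =>
          intro z
          simp only [wd, Homeomorph.mul_apply, hn m hm]
          exact ih _
      have e2 : (wd h a n).symm (θ a) = (wd h b n).symm (θ b) := by
        refine tendsto_nhds_unique_of_eventuallyEq (hθt a n) (hθt b n) ?_
        filter_upwards [eventually_ge_atTop n] with m hm using e m hm x
      have h1 := hwE a n ((wd h a n).symm (θ a))
      have h2 := hwE b n ((wd h b n).symm (θ b))
      rw [Homeomorph.apply_symm_apply] at h1 h2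
      rw [e2] at h1
      exact hE.trans (hE.symm h1) h2

/-- The Glimm-Effros dichotomy for countable Borel equivalence relations. -/
theorem glimm_effros {X : Type} [MeasurableSpace X] [StandardBorelSpace X] {E : X → X → Prop}
    (hE : Equivalence E) (g : ℕ → X → X) (hg : ∀ i, Measurable (g i))
    (hgi : ∀ i x, g i (g i x) = x) (hg0 : ∀ x, g 0 x = x)
    (hgE : ∀ x y, E x y ↔ ∃ i, g i x = y) (hns : ¬ IsSmooth E) :
    ∃ θ : (ℕ → Bool) → X, Measurable θ ∧ Function.Injective θ ∧
      ∀ a b, E (θ a) (θ b) ↔ ∃ n, ∀ m ≥ n, a m = b m := by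
  rcases isEmpty_or_nonempty X with hX | hX
  · exact absurd ⟨∅, MeasurableSet.empty, fun x => hX.elim x⟩ hns
  obtain ⟨t, hp, hb, ρ, -, hgc, -⟩ := exists_rho (κ := ℕ) g hg (fun _ _ => 0)
    (fun _ => measurable_const)
  letI := upgradeIsCompletelyMetrizable X
  have hx : ∃ x, ∀ ε > 0, ∃ y, y ≠ x ∧ E x y ∧ dist y x < ε := by
    by_contra hno
    apply hns
    refine smooth_of_isolated hE g hg hgE fun x => ?_
    push Not at hno
    obtain ⟨ε, hε, h⟩ := hno x
    refine ⟨Metric.ball x ε, Metric.isOpen_ball, Metric.mem_ball_self hε, fun y hy hxy => ?_⟩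
    by_contra hne
    exact absurd hy (not_lt.2 (h y hne hxy))
  obtain ⟨x, hx⟩ := hx
  let g' : ℕ → X ≃ₜ X := fun i =>
    { toFun := g i, invFun := g i, left_inv := hgi i, right_inv := hgi i,
      continuous_toFun := hgc i, continuous_invFun := hgc i }
  exact ge_top hE g' hgi hg0 hgE x hx

end Pool.Agent.H244Z.CB
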