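import Mathlib
import Pool.Agent.Helper281.Sc.Mark
import Pool.Agent.H244Z.CB.GE

set_option autoImplicit false

namespace Pool.Agent.H244Z.CB

open Set Filter Topology TopologicalSpace MeasureTheory

theorem polish_of_gdelta {X : Type} [TopologicalSpace X] [PolishSpace X] {s : Set X}
    (hs : IsGδ s) : PolishSpace s := by
  obtain ⟨U, hU, hsU⟩ := isGδ_iff_eq_iInter_nat.1 hs
  haveI : ∀ n, PolishSpace (U n) := fun n => (hU n).polishSpace
  have hmem : ∀ x : s, ∀ n, (x : X) ∈ U n := fun x n => mem_iInter.1 (hsU ▸ x.2) n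
  let f : s → ∀ n, U n := fun x n => ⟨x, hmem x n⟩
  have hf : Continuous f := continuous_pi fun n => continuous_subtype_val.subtype_mk _
  have hp : Continuous fun z : (∀ n, U n) => (z 0 : X) :=
    continuous_subtype_val.comp (continuous_apply 0)
  have he : IsEmbedding f := IsEmbedding.of_comp hf hp IsEmbedding.subtypeVal
  refine IsClosedEmbedding.polishSpace (f := f) ⟨he, ?_⟩
  have : range f = ⋂ n, {z : (∀ n, U n) | (z n : X) = z 0} := by
    ext z
    simp only [mem_range, mem_iInter, mem_setOf_eq]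
    constructor
    · rintro ⟨x, rfl⟩ n
      rfl
    · intro h
      refine ⟨⟨z 0, ?_⟩, ?_⟩
      · rw [hsU, mem_iInter]
        intro n
        rw [← h n]
        exact (z n).2
      · funext n
        exact Subtype.ext (h n).symm
  rw [this]
  exact isClosed_iInter fun n =>
    isClosed_eq (continuous_subtype_val.comp (continuous_apply n)) hp

theorem unc_bool : ¬ (univ : Set (ℕ → Bool)).Countable := by
  intro h
  have : Countable (ℕ → Bool) := countable_univ_iff.1 h
  obtain ⟨e, he⟩ := exists_surjective_nat (ℕ → Bool)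
  obtain ⟨n, hn⟩ := he fun j => !(e j j)
  simpa using congrFun hn n

theorem unc_nat : ¬ (univ : Set (ℕ → ℕ)).Countable := by
  intro h
  have : Countable (ℕ → ℕ) := countable_univ_iff.1 h
  obtain ⟨e, he⟩ := exists_surjective_nat (ℕ → ℕ)
  obtain ⟨n, hn⟩ := he fun j => e j j + 1
  simpa using congrFun hn n

theorem nat_family {α ι : Type} [Countable ι] [Nonempty ι] (C : ι → Set α) (P : Set α → Prop)
    (h : ∀ i, P (C i)) : ∃ D : ℕ → Set α, (∀ n, P (D n)) ∧ ⋃ i, C i = ⋃ n, D n := by
  obtain ⟨e, he⟩ := exists_surjective_nat ι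
  exact ⟨fun n => C (e n), fun n => h _, (he.iUnion_comp C).symm⟩

theorem iso_of_bij {X Y : Type} [MeasurableSpace X] [StandardBorelSpace X] [MeasurableSpace Y]
    [StandardBorelSpace Y] {E : X → X → Prop} {F : Y → Y → Prop} (f : X → Y) (hf : Measurable f)
    (hb : Function.Bijective f) (h : ∀ x x', E x x' ↔ F (f x) (f x')) : BorelIso E F := by
  have he : MeasurableEmbedding f := hf.measurableEmbedding hb.1
  refine ⟨⟨Equiv.ofBijective f hb, hf, ?_⟩, h⟩
  intro s hs
  have : (Equiv.ofBijective f hb).symm ⁻¹' s = f '' s := by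
    rw [← Equiv.image_eq_preimage_symm]
    rfl
  show MeasurableSet ((Equiv.ofBijective f hb).symm ⁻¹' s)
  rw [this]
  exact he.measurableSet_image' hs

/-- an uncountable Borel set of pairwise inequivalent points -/
theorem exists_partial_transversal {X : Type} [MeasurableSpace X] [StandardBorelSpace X]
    [Uncountable X] {E : X → X → Prop} (hE : IsAperiodicCBER E) :
    ∃ T : Set X, MeasurableSet T ∧ ¬ T.Countable ∧ ∀ x ∈ T, ∀ y ∈ T, E x y → x = y := by
  by_cases hs : IsSmooth E
  · obtain ⟨T, hT, h⟩ := hs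
    refine ⟨T, hT, fun hc => ?_, fun x hx y hy hxy => ?_⟩
    · have : (univ : Set X) ⊆ ⋃ t ∈ T, {y | E t y} := by
        intro x _
        obtain ⟨t, ⟨ht, hxt⟩, -⟩ := h x
        exact mem_biUnion ht (hE.equiv.symm hxt)
      exact not_countable_univ ((hc.biUnion fun t _ => hE.countable t).mono this)
    · exact (h x).unique ⟨hx, hE.equiv.refl x⟩ ⟨hy, hxy⟩
  · obtain ⟨g, hg, hgi, hg0, hgE⟩ := exists_invol hE.equiv hE.borel hE.countable
    obtain ⟨θ, hθ, hinj, hθE⟩ := glimm_effros hE.equiv g hg hgi hg0 hgE hs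
    let dup : (ℕ → Bool) → ℕ → Bool := fun a n => a n.unpair.1
    have hdm : Measurable dup := measurable_pi_lambda _ fun n => measurable_pi_apply _
    have hdi : Function.Injective dup := by
      intro a b hab
      funext j
      simpa [dup] using congrFun hab (Nat.pair j 0)
    have hi : Function.Injective (θ ∘ dup) := hinj.comp hdi
    refine ⟨range (θ ∘ dup), ((hθ.comp hdm).measurableEmbedding hi).measurableSet_range,
      fun hc => ?_, ?_⟩
    · rw [← image_univ] at hc
      exact unc_bool (countable_of_injective_of_countable_image hi.injOn hc)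
    · rintro _ ⟨a, rfl⟩ _ ⟨b, rfl⟩ hab
      obtain ⟨n, hn⟩ := (hθE _ _).1 hab
      have : a = b := by
        funext j
        simpa [dup] using hn (Nat.pair j n) (Nat.right_le_pair _ _)
      rw [this]

/-- closed copies of the Baire space inside the basic open sets -/
def emb (n : ℕ) (w : ℕ → ℕ) (j : ℕ) : ℕ :=
  if j < (Denumerable.ofNat (List ℕ) n).length then (Denumerable.ofNat (List ℕ) n).getD j 0
  else Nat.pair (n + 1) (w (j - (Denumerable.ofNat (List ℕ) n).length))

theorem emb_closed (n : ℕ) : IsClosedEmbedding (emb n) := by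
  refine Function.LeftInverse.isClosedEmbedding
    (f := fun z j => (z (j + (Denumerable.ofNat (List ℕ) n).length)).unpair.2) ?_ ?_ ?_
  · intro w
    funext j
    simp [emb]
  · exact continuous_pi fun j =>
      (continuous_of_discreteTopology (f := fun m : ℕ => m.unpair.2)).comp (continuous_apply _)
  · refine continuous_pi fun j => ?_
    unfold emb
    split_ifs
    · exact continuous_const
    · exact (continuous_of_discreteTopology (f := fun m : ℕ => Nat.pair (n + 1) m)).comp
        (continuous_apply _)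

theorem emb_tail (n : ℕ) (w : ℕ → ℕ) (j : ℕ) (hj : (Denumerable.ofNat (List ℕ) n).length ≤ j) :
    (emb n w j).unpair.1 = n + 1 := by
  simp [emb, not_lt.2 hj]

theorem emb_disj {n m : ℕ} {w w' : ℕ → ℕ} (h : emb n w = emb m w') : n = m := by
  have h1 := emb_tail n w ((Denumerable.ofNat (List ℕ) n).length +
    (Denumerable.ofNat (List ℕ) m).length) (Nat.le_add_right _ _)
  have h2 := emb_tail m w' ((Denumerable.ofNat (List ℕ) n).length +
    (Denumerable.ofNat (List ℕ) m).length) (Nat.le_add_left _ _)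
  rw [h] at h1
  omega

theorem emb_small {V : Set (ℕ → ℕ)} (hV : IsOpen V) {z : ℕ → ℕ} (hz : z ∈ V) :
    ∃ n, ∀ w, emb n w ∈ V := by
  obtain ⟨N, hN⟩ := Pool.Agent.Helper281.LN.cyl_sub hV hz
  refine ⟨Encodable.encode ((List.range N).map z), fun w => hN _ fun l hl => ?_⟩
  simp [emb, hl]

theorem emb_compl : ¬ ((⋃ n, range (emb n))ᶜ).Countable := by
  intro hc
  let d : (ℕ → ℕ) → ℕ → ℕ := fun w j => Nat.pair 0 (w j)
  have hd : Function.Injective d := by
    intro a b hab
    funext j
    simpa [d] using congrFun hab j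
  have : d '' univ ⊆ (⋃ n, range (emb n))ᶜ := by
    rintro _ ⟨w, -, rfl⟩ h
    obtain ⟨n, w', hw⟩ := mem_iUnion.1 h
    have := emb_tail n w' _ le_rfl
    rw [hw] at this
    simp [d] at this
  exact unc_nat (countable_of_injective_of_countable_image hd.injOn (hc.mono this))

theorem minimal_fsigma (X : Type) [MeasurableSpace X] [StandardBorelSpace X] [Uncountable X]
    (E : X → X → Prop) (hE : IsAperiodicCBER E) :
    ∃ (Y : Type) (_ : TopologicalSpace Y) (_ : PolishSpace Y) (_ : MeasurableSpace Y)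
      (_ : BorelSpace Y) (F : Y → Y → Prop), Equivalence F ∧ BorelIso E F ∧ IsMinimalRel F ∧
      ∃ C : ℕ → Set (Y × Y), (∀ n, IsClosed (C n)) ∧ {p : Y × Y | F p.1 p.2} = ⋃ n, C n := by
  classical
  obtain ⟨T, hTm, hTc, hT⟩ := exists_partial_transversal hE
  obtain ⟨g, hg, -, -, hgE⟩ := exists_invol hE.equiv hE.borel hE.countable
  have hEq : E = fun x y => ∃ n, g n x = y := by
    funext x y
    exact propext (hgE x y)
  obtain ⟨κ, hκm, hκ⟩ := Pool.Agent.Helper281.Bo.exists_class_surjective g hg (hEq ▸ hE.equiv)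
  have hY0m : MeasurableSet ((⋃ n, range (emb n))ᶜ) :=
    (MeasurableSet.iUnion fun n => (emb_closed n).isClosed_range.measurableSet).compl
  haveI := hTm.standardBorel
  haveI := hY0m.standardBorel
  let ψ : T ≃ᵐ ((⋃ n, range (emb n))ᶜ : Set (ℕ → ℕ)) :=
    PolishSpace.measurableEquivOfNotCountable (fun h => hTc (countable_coe_iff.1 h))
      (fun h => emb_compl (countable_coe_iff.1 h))
  let ψ' : X → ℕ → ℕ := fun x => if hx : x ∈ T then (ψ ⟨x, hx⟩ : ℕ → ℕ) else 0
  have hψ' : Measurable ψ' :=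
    Measurable.dite (f := fun x : T => (ψ x : ℕ → ℕ)) (g := fun _ => 0)
      (measurable_subtype_coe.comp ψ.measurable) measurable_const hTm
  let k : X → ℕ := fun x => if x ∈ T then 0 else (κ x).unpair.1 + 1
  have hk : Measurable k :=
    Measurable.ite hTm measurable_const
      ((measurable_from_top (f := fun n : ℕ => n.unpair.1 + 1)).comp hκm)
  have hk0 : ∀ x, k x = 0 ↔ x ∈ T := by
    intro x
    by_cases hx : x ∈ T <;> simp [k, hx]
  have hkall : ∀ x n, ∃ y, E x y ∧ k y = n + 1 := by
    intro x n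
    have hinf : {y | ∃ n, g n x = y}.Infinite := by
      have := hE.infinite x
      rwa [hEq] at this
    obtain ⟨i, hi⟩ := hκ x hinf (Nat.pair n 0)
    obtain ⟨j, hj⟩ := hκ x hinf (Nat.pair n 1)
    have hxi : E x (g i x) := (hgE _ _).2 ⟨i, rfl⟩
    have hxj : E x (g j x) := (hgE _ _).2 ⟨j, rfl⟩
    by_cases h1 : g i x ∈ T
    · by_cases h2 : g j x ∈ T
      · have := hT _ h1 _ h2 (hE.equiv.trans (hE.equiv.symm hxi) hxj)
        rw [this, hj] at hi
        simp at hi
      · exact ⟨_, hxj, by simp [k, h2, hj]⟩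
    · exact ⟨_, hxi, by simp [k, h1, hi]⟩
  obtain ⟨t, hp, hb, ρ, hρ, hgc, hlc⟩ := exists_rho (κ := Option ℕ) g hg
    (fun o => o.elim k fun j x => ψ' x j) (by
      rintro (_ | j)
      · exact hk
      · exact (measurable_pi_apply j).comp hψ')
  have hkc : Continuous k := hlc none
  have hψc : Continuous ψ' := continuous_pi fun j => hlc (some j)
  let f : X → ℕ → ℕ := fun x => if k x = 0 then ψ' x else emb (k x - 1) (ρ x)
  have hf1 : ∀ x n, k x = n + 1 → f x = emb n (ρ x) := by
    intro x n h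
    simp [f, h]
  have hf0 : ∀ x (hx : x ∈ T), f x = ψ ⟨x, hx⟩ := by
    intro x hx
    simp [f, (hk0 x).2 hx, ψ', hx]
  have hfc : Continuous f := by
    refine continuous_iff_continuousAt.2 fun x => ?_
    have hev : ∀ᶠ y in 𝓝 x, k y = k x :=
      hkc.continuousAt.eventually (p := fun n => n = k x) (by simp)
    by_cases h : k x = 0
    · refine hψc.continuousAt.congr ?_
      filter_upwards [hev] with y hy
      simp [f, hy, h]
    · refine ((emb_closed (k x - 1)).continuous.comp hρ.continuous).continuousAt.congr ?_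
      filter_upwards [hev] with y hy
      simp [f, hy, h]
  have hcase : ∀ x, x ∈ T ∨ ∃ n, k x = n + 1 := by
    intro x
    rcases h : k x with _ | n
    · exact Or.inl ((hk0 x).1 h)
    · exact Or.inr ⟨n, rfl⟩
  have hTout : ∀ x, x ∈ T → ∀ n w, f x ≠ emb n w := by
    intro x hx n w h
    have := (ψ ⟨x, hx⟩).2
    rw [← hf0 x hx] at this
    exact this (mem_iUnion.2 ⟨n, w, h.symm⟩)
  have hfi : Function.Injective f := by
    intro x y hxy
    rcases hcase x with hx | ⟨n, hn⟩ <;> rcases hcase y with hy | ⟨m, hm⟩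
    · rw [hf0 x hx, hf0 y hy] at hxy
      exact congrArg Subtype.val (ψ.injective (Subtype.ext hxy))
    · exact absurd (hxy.trans (hf1 y m hm)) (hTout x hx _ _)
    · exact absurd (hxy.symm.trans (hf1 x n hn)) (hTout y hy _ _)
    · rw [hf1 x n hn, hf1 y m hm] at hxy
      obtain rfl := emb_disj hxy
      exact hρ.injective ((emb_closed n).injective hxy)
  have hXn : ∀ n, IsClosed {x | k x = n + 1} := fun n => isClosed_eq hkc continuous_const
  have hprop : ∀ n, IsProperMap fun x : {x | k x = n + 1} => f x := by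
    intro n
    have : (fun x : {x | k x = n + 1} => f x) = (emb n ∘ ρ) ∘ Subtype.val := by
      funext x
      exact hf1 x n x.2
    rw [this]
    exact (((emb_closed n).comp hρ).comp (hXn n).isClosedEmbedding_subtypeVal).isProperMap
  have hgd : IsGδ (range f) := by
    have : range f = ⋂ n, ((range (emb n))ᶜ ∪ range fun x : {x | k x = n + 1} => f x) := by
      ext z
      simp only [mem_iInter]
      constructor
      · rintro ⟨x, rfl⟩ n
        by_cases h : f x ∈ range (emb n)
        · right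
          obtain ⟨w, hw⟩ := h
          rcases hcase x with hx | ⟨m, hm⟩
          · exact absurd hw.symm (hTout x hx _ _)
          · have := hw.trans (hf1 x m hm)
            obtain rfl := emb_disj this
            exact ⟨⟨x, hm⟩, rfl⟩
        · exact Or.inl h
      · intro h
        by_cases hz : z ∈ ⋃ n, range (emb n)
        · obtain ⟨n, hn⟩ := mem_iUnion.1 hz
          rcases h n with h | ⟨x, hx⟩
          · exact absurd hn h
          · exact ⟨x, hx⟩
        · refine ⟨ψ.symm ⟨z, hz⟩, ?_⟩
          rw [hf0 _ (ψ.symm ⟨z, hz⟩).2]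
          simp
    rw [this]
    exact IsGδ.iInter fun n => ((emb_closed n).isClosed_range.isOpen_compl.isGδ).union
      (hprop n).isClosed_range.isGδ
  haveI : PolishSpace (range f) := polish_of_gdelta hgd
  let f' : X → range f := rangeFactorization f
  have hf'b : Function.Bijective f' :=
    ⟨fun x y h => hfi (congrArg Subtype.val h), rangeFactorization_surjective⟩
  let F : range f → range f → Prop := fun y y' => ∃ x x', E x x' ∧ f' x = y ∧ f' x' = y'
  have hF : ∀ x x', E x x' ↔ F (f' x) (f' x') := by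
    intro x x'
    refine ⟨fun h => ⟨x, x', h, rfl, rfl⟩, ?_⟩
    rintro ⟨a, b, h, ha, hb⟩
    rwa [← hf'b.1 ha, ← hf'b.1 hb]
  refine ⟨range f, inferInstance, inferInstance, inferInstance, inferInstance, F, ?_, ?_, ?_, ?_⟩
  · refine ⟨fun y => ?_, fun {y y'} h => ?_, fun {y y' y''} h h' => ?_⟩
    · obtain ⟨x, rfl⟩ := hf'b.2 y
      exact (hF _ _).1 (hE.equiv.refl x)
    · obtain ⟨x, rfl⟩ := hf'b.2 y
      obtain ⟨x', rfl⟩ := hf'b.2 y'
      exact (hF _ _).1 (hE.equiv.symm ((hF _ _).2 h))
    · obtain ⟨x, rfl⟩ := hf'b.2 y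
      obtain ⟨x', rfl⟩ := hf'b.2 y'
      obtain ⟨x'', rfl⟩ := hf'b.2 y''
      exact (hF _ _).1 (hE.equiv.trans ((hF _ _).2 h) ((hF _ _).2 h'))
  · exact iso_of_bij f' hfc.measurable.subtype_mk hf'b hF
  · intro y
    obtain ⟨x, rfl⟩ := hf'b.2 y
    rw [dense_iff_inter_open]
    rintro U hU ⟨z, hz⟩
    obtain ⟨V, hV, rfl⟩ := isOpen_induced_iff.1 hU
    obtain ⟨n, hn⟩ := emb_small hV hz
    obtain ⟨x', hx', hk'⟩ := hkall x n
    refine ⟨f' x', ?_, (hF _ _).1 hx'⟩
    show f x' ∈ V
    rw [hf1 x' n hk']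
    exact hn _
  · let P : ℕ → ℕ → Set ((ℕ → ℕ) × (ℕ → ℕ)) := fun n i =>
      range fun x : {x | k x = n + 1} => (f x, f (g i x))
    have hP : ∀ n i, IsClosed (P n i) := by
      intro n i
      refine IsProperMap.isClosed_range (isProperMap_of_comp_of_t2 (g := Prod.fst) ?_
        continuous_fst (hprop n))
      exact (hfc.comp continuous_subtype_val).prodMk
        (hfc.comp ((hgc i).comp continuous_subtype_val))
    let C : Option (ℕ × ℕ × Bool) → Set (range f × range f) := fun o => match o with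
      | none => {p | p.1 = p.2}
      | some (n, i, true) => {p | ((p.1 : ℕ → ℕ), (p.2 : ℕ → ℕ)) ∈ P n i}
      | some (n, i, false) => {p | ((p.2 : ℕ → ℕ), (p.1 : ℕ → ℕ)) ∈ P n i}
    obtain ⟨D, hD, hDU⟩ := nat_family C IsClosed (by
      rintro (_ | ⟨n, i, _ | _⟩)
      · exact isClosed_eq continuous_fst continuous_snd
      · exact (hP n i).preimage (by fun_prop)
      · exact (hP n i).preimage (by fun_prop))
    refine ⟨D, hD, ?_⟩
    rw [← hDU]
    ext ⟨y, y'⟩
    obtain ⟨x, rfl⟩ := hf'b.2 y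
    obtain ⟨x', rfl⟩ := hf'b.2 y'
    simp only [mem_setOf_eq, mem_iUnion, ← hF]
    constructor
    · intro h
      rcases hcase x with hx | ⟨n, hn⟩
      · rcases hcase x' with hx' | ⟨n, hn⟩
        · exact ⟨none, congrArg f' (hT _ hx _ hx' h)⟩
        · obtain ⟨i, hi⟩ := (hgE _ _).1 (hE.equiv.symm h)
          exact ⟨some (n, i, false), ⟨x', hn⟩, by simp [hi, f']⟩
      · obtain ⟨i, hi⟩ := (hgE _ _).1 h
        exact ⟨some (n, i, true), ⟨x, hn⟩, by simp [hi, f']⟩
    · rintro ⟨_ | ⟨n, i, _ | _⟩, h⟩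
      · rw [hf'b.1 h]
        exact hE.equiv.refl _
      · obtain ⟨z, hz⟩ := h
        obtain ⟨h1, h2⟩ := Prod.ext_iff.1 hz
        rw [← hfi h1, ← hfi h2]
        exact hE.equiv.symm ((hgE _ _).2 ⟨i, rfl⟩)
      · obtain ⟨z, hz⟩ := h
        obtain ⟨h1, h2⟩ := Prod.ext_iff.1 hz
        rw [← hfi h1, ← hfi h2]
        exact (hgE _ _).2 ⟨i, rfl⟩

end Pool.Agent.H244Z.CB
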