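import Mathlib
import Pool.Agent.H244Z.CB.FS

set_option autoImplicit false

namespace Pool.Agent.H244Z.CB

open Set Filter Topology TopologicalSpace MeasureTheory

/-- the characteristic function of the branch of a point of the Baire space -/
def br (w : ℕ → ℕ) (L : List ℕ) : Bool := decide (L = (List.range L.length).map w)

theorem br_cont : Continuous br := by
  refine continuous_pi fun L => ?_
  have h1 : ∀ n : ℕ, Continuous fun w : ℕ → ℕ => fun i : Fin n => w i := fun n =>
    continuous_pi fun i => continuous_apply _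
  have : (fun w => br w L) = (fun a : Fin L.length → ℕ => decide (L = List.ofFn a)) ∘
      fun w : ℕ → ℕ => fun i : Fin L.length => w i := by
    funext w
    simp only [br, Function.comp]
    congr 2
    apply List.ext_getElem <;> simp
  rw [this]
  exact continuous_of_discreteTopology.comp (h1 _)

theorem br_self (w : ℕ → ℕ) (n : ℕ) : br w ((List.range n).map w) = true := by
  simp [br]

theorem br_get {w : ℕ → ℕ} {L : List ℕ} (h : br w L = true) {m : ℕ} (hm : m < L.length) :
    w m = L.getD m 0 := by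
  simp only [br, decide_eq_true_eq] at h
  rw [h]
  simp [hm]

theorem br_lim {Y : Type} {e : Y → ℕ → ℕ} {F : Filter Y} {z : List ℕ → Bool}
    (hz : Tendsto (fun y => br (e y)) F (𝓝 z)) {L : List ℕ} (hL : z L = true) {m : ℕ}
    (hm : m < L.length) : ∀ᶠ y in F, e y m = L.getD m 0 := by
  have := tendsto_pi_nhds.1 hz L
  rw [nhds_discrete, tendsto_pure, hL] at this
  exact this.mono fun y hy => br_get hy hm

theorem br_conv {Y : Type} [TopologicalSpace Y] {e : Y → ℕ → ℕ} (he : IsClosedEmbedding e)
    {F : Filter Y} {y : Y} (hz : Tendsto (fun y => br (e y)) F (𝓝 (br (e y)))) : F ≤ 𝓝 y := by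
  rw [he.isInducing.nhds_eq_comap, ← tendsto_iff_comap, tendsto_pi_nhds]
  intro m
  rw [nhds_discrete, tendsto_pure]
  have := br_lim hz (br_self (e y) (m + 1)) (m := m) (by simp)
  simpa using this

theorem br_inj {Y : Type} [TopologicalSpace Y] {e : Y → ℕ → ℕ} (he : IsClosedEmbedding e) :
    Function.Injective fun y => br (e y) := by
  intro y y' h
  apply he.injective
  funext m
  have h1 := br_self (e y) (m + 1)
  have h2 : br (e y) = br (e y') := h
  rw [h2] at h1
  have := br_get h1 (m := m) (by simp)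
  simpa using this.symm

theorem br_remainder {Y : Type} [TopologicalSpace Y] {e : Y → ℕ → ℕ} (he : IsClosedEmbedding e) :
    (closure (range fun y => br (e y)) \ range fun y => br (e y)).Countable := by
  classical
  have hfin : ∀ z ∈ closure (range fun y => br (e y)) \ range fun y => br (e y),
      {L | z L = true}.Finite := by
    rintro z ⟨hz, hz'⟩
    have hne : (comap (fun y => br (e y)) (𝓝 z)).NeBot := by
      rw [comap_neBot_iff_frequently]
      exact mem_closure_iff_frequently.1 hz
    have hb : ∃ n, ∀ L, z L = true → L.length ≤ n := by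
      by_contra hno
      push Not at hno
      choose L hL hLn using hno
      have ht : Tendsto e (comap (fun y => br (e y)) (𝓝 z)) (𝓝 fun m => (L m).getD m 0) := by
        rw [tendsto_pi_nhds]
        intro m
        rw [nhds_discrete ℕ, tendsto_pure]
        exact br_lim tendsto_comap (hL m) (hLn m)
      obtain ⟨y, hy⟩ := he.isClosed_range.mem_of_tendsto ht
        (Eventually.of_forall fun y => ⟨y, rfl⟩)
      rw [← hy] at ht
      exact hz' ⟨y, tendsto_nhds_unique ((br_cont.tendsto _).comp ht) tendsto_comap⟩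
    obtain ⟨n, hn⟩ := hb
    refine Finite.of_finite_image (f := List.length) ((finite_Iic n).subset ?_) ?_
    · rintro _ ⟨L, hL, rfl⟩
      exact hn L hL
    · intro L hL L' hL' hlen
      have h1 := tendsto_pi_nhds.1 (tendsto_comap (f := fun y => br (e y)) (x := 𝓝 z)) L
      have h2 := tendsto_pi_nhds.1 (tendsto_comap (f := fun y => br (e y)) (x := 𝓝 z)) L'
      rw [nhds_discrete Bool, tendsto_pure] at h1 h2
      obtain ⟨y, hy1, hy2⟩ := (h1.and h2).exists
      have e1 : br (e y) L = true := hy1.trans hL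
      have e2 : br (e y) L' = true := hy2.trans hL'
      simp only [br, decide_eq_true_eq] at e1 e2
      rw [e1, e2, hlen]
  refine MapsTo.countable_of_injOn (f := fun z : List ℕ → Bool => {L | z L = true})
    (t := {s : Set (List ℕ) | s.Finite}) hfin ?_ Set.Countable.ofPred_finite
  intro z _ z' _ h
  funext L
  have := Set.ext_iff.1 h L
  simp only [mem_setOf_eq] at this
  exact Bool.eq_iff_iff.2 this

theorem compactify {Y : Type} [TopologicalSpace Y] [PolishSpace Y] [MeasurableSpace Y]
    [BorelSpace Y] {e : Y → ℕ → ℕ} (he : IsClosedEmbedding e) {F : Y → Y → Prop}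
    (hF : Equivalence F) (hmin : IsMinimalRel F) (y0 : Y) (hc : {y | F y0 y}.Countable)
    (hi : {y | F y0 y}.Infinite) {ι : Type} [Countable ι] (G : ι → Set (Y × Y))
    (hG : {p : Y × Y | F p.1 p.2} = ⋃ i, G i)
    (hp1 : ∀ i, IsProperMap fun c : G i => (c : Y × Y).1)
    (hp2 : ∀ i, IsProperMap fun c : G i => (c : Y × Y).2) :
    ∃ (K : Type) (_ : TopologicalSpace K) (_ : PolishSpace K) (_ : CompactSpace K)
      (_ : MeasurableSpace K) (_ : BorelSpace K) (F' : K → K → Prop) (h : Y → K),
      Equivalence F' ∧ Measurable h ∧ Function.Bijective h ∧ (∀ y y', F y y' ↔ F' (h y) (h y')) ∧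
      IsMinimalRel F' ∧
      ∃ C : ℕ → Set (K × K), (∀ n, IsCompact (C n)) ∧ {p : K × K | F' p.1 p.2} = ⋃ n, C n := by
  classical
  let K : Set (List ℕ → Bool) := closure (range fun y => br (e y))
  haveI : PolishSpace (List ℕ → Bool) :=
    instPolishSpaceOfSeparableSpaceOfIsCompletelyMetrizableSpace
  haveI : PolishSpace K := isClosed_closure.polishSpace
  haveI : CompactSpace K := isCompact_iff_compactSpace.1 isClosed_closure.isCompact
  let j : Y → K := fun y => ⟨br (e y), subset_closure ⟨y, rfl⟩⟩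
  have hjc : Continuous j := (br_cont.comp he.continuous).subtype_mk _
  have hji : Function.Injective j := fun y y' h => br_inj he (congrArg Subtype.val h)
  have hjd : DenseRange j := by
    rw [DenseRange, IsEmbedding.subtypeVal.isInducing.dense_iff]
    intro z
    rw [← range_comp]
    exact z.2
  have hjconv : ∀ (𝒰 : Filter Y) (y : Y), Tendsto j 𝒰 (𝓝 (j y)) → 𝒰 ≤ 𝓝 y := fun 𝒰 y h =>
    br_conv he ((continuous_subtype_val.tendsto _).comp h)
  let N : Set K := j '' {y | F y0 y} ∪ (range j)ᶜ
  have hN : N.Countable := by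
    refine (hc.image j).union (((br_remainder he).preimage Subtype.val_injective).mono ?_)
    intro z hz
    refine ⟨z.2, ?_⟩
    rintro ⟨y, hy⟩
    exact hz ⟨y, Subtype.ext hy⟩
  have hNi : N.Infinite := (hi.image hji.injOn).mono subset_union_left
  haveI := hc.to_subtype
  haveI := hi.to_subtype
  haveI := hN.to_subtype
  haveI := hNi.to_subtype
  obtain ⟨q⟩ : Nonempty ({y | F y0 y} ≃ N) := nonempty_equiv_of_countable
  let h : Y → K := fun y => if hy : y ∈ {y | F y0 y} then (q ⟨y, hy⟩ : K) else j y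
  have h1 : ∀ y (hy : F y0 y), h y = q ⟨y, hy⟩ := fun y hy => dif_pos hy
  have h2 : ∀ y, ¬ F y0 y → h y = j y := fun y hy => dif_neg hy
  have hjN : ∀ y, j y ∈ N ↔ F y0 y := by
    intro y
    constructor
    · rintro (⟨y', hy', e⟩ | hy)
      · exact hji e ▸ hy'
      · exact absurd ⟨y, rfl⟩ hy
    · exact fun hy => Or.inl ⟨y, hy, rfl⟩
  have hhN : ∀ y, h y ∈ N ↔ F y0 y := by
    intro y
    by_cases hy : F y0 y
    · rw [h1 y hy]
      exact ⟨fun _ => hy, fun _ => (q ⟨y, hy⟩).2⟩
    · rw [h2 y hy, hjN]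
  let F' : K → K → Prop := fun z z' =>
    (z ∈ N ∧ z' ∈ N) ∨ ∃ y y', F y y' ∧ j y = z ∧ j y' = z'
  have hjF : ∀ y y', F' (j y) (j y') ↔ F y y' := by
    intro y y'
    constructor
    · rintro (⟨a, b⟩ | ⟨a, b, hab, ha, hb⟩)
      · exact hF.trans (hF.symm ((hjN _).1 a)) ((hjN _).1 b)
      · rwa [← hji ha, ← hji hb]
    · exact fun h => Or.inr ⟨y, y', h, rfl, rfl⟩
  have hF'N : ∀ z z', F' z z' → (z ∈ N ↔ z' ∈ N) := by
    rintro z z' (⟨a, b⟩ | ⟨a, b, hab, rfl, rfl⟩)
    · exact ⟨fun _ => b, fun _ => a⟩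
    · rw [hjN, hjN]
      exact ⟨fun h => hF.trans h hab, fun h => hF.trans h (hF.symm hab)⟩
  have hhF : ∀ y y', F y y' ↔ F' (h y) (h y') := by
    intro y y'
    by_cases hy : F y0 y
    · constructor
      · intro hyy
        exact Or.inl ⟨(hhN _).2 hy, (hhN _).2 (hF.trans hy hyy)⟩
      · intro hyy
        exact hF.trans (hF.symm hy) ((hhN _).1 ((hF'N _ _ hyy).1 ((hhN _).2 hy)))
    · by_cases hy' : F y0 y'
      · constructor
        · intro hyy
          exact absurd (hF.trans hy' (hF.symm hyy)) hy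
        · intro hyy
          exact absurd ((hhN _).1 ((hF'N _ _ hyy).2 ((hhN _).2 hy'))) hy
      · rw [h2 y hy, h2 y' hy', hjF]
  have hb : Function.Bijective h := by
    constructor
    · intro y y' hyy
      by_cases hy : F y0 y
      · have hy' : F y0 y' := (hhN _).1 (hyy ▸ (hhN _).2 hy)
        rw [h1 y hy, h1 y' hy'] at hyy
        exact congrArg Subtype.val (q.injective (Subtype.ext hyy))
      · have hy' : ¬ F y0 y' := fun h' => hy ((hhN _).1 (hyy ▸ (hhN _).2 h'))
        rw [h2 y hy, h2 y' hy'] at hyy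
        exact hji hyy
    · intro z
      by_cases hz : z ∈ N
      · refine ⟨q.symm ⟨z, hz⟩, ?_⟩
        rw [h1 _ (q.symm ⟨z, hz⟩).2]
        simp
      · have : z ∈ range j := by
          by_contra hr
          exact hz (Or.inr hr)
        obtain ⟨y, rfl⟩ := this
        exact ⟨y, h2 y fun hy => hz ((hjN y).2 hy)⟩
  refine ⟨K, inferInstance, inferInstance, inferInstance, inferInstance, inferInstance, F', h,
    ?_, ?_, hb, hhF, ?_, ?_⟩
  · refine ⟨fun y => ?_, fun {y y'} h => ?_, fun {y y' y''} h h' => ?_⟩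
    · obtain ⟨x, rfl⟩ := hb.2 y
      exact (hhF _ _).1 (hF.refl x)
    · obtain ⟨x, rfl⟩ := hb.2 y
      obtain ⟨x', rfl⟩ := hb.2 y'
      exact (hhF _ _).1 (hF.symm ((hhF _ _).2 h))
    · obtain ⟨x, rfl⟩ := hb.2 y
      obtain ⟨x', rfl⟩ := hb.2 y'
      obtain ⟨x'', rfl⟩ := hb.2 y''
      exact (hhF _ _).1 (hF.trans ((hhF _ _).2 h) ((hhF _ _).2 h'))
  · exact Measurable.dite (f := fun y : {y | F y0 y} => (q y : K)) (g := fun y => j y)
      (measurable_of_countable _) (hjc.measurable.comp measurable_subtype_coe) hc.measurableSet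
  · intro z
    have : ∃ y, ∀ y', F y y' → F' z (j y') := by
      by_cases hz : z ∈ N
      · exact ⟨y0, fun y' hy' => Or.inl ⟨hz, (hjN _).2 hy'⟩⟩
      · have : z ∈ range j := by
          by_contra hr
          exact hz (Or.inr hr)
        obtain ⟨y, rfl⟩ := this
        exact ⟨y, fun y' hy' => (hjF _ _).2 hy'⟩
    obtain ⟨y, hy⟩ := this
    refine (hjd.dense_image hjc (hmin y)).mono ?_
    rintro _ ⟨y', hy', rfl⟩
    exact hy y' hy'
  · let C : ι ⊕ (N × N) → Set (K × K) := fun i => match i with
      | Sum.inl i => closure (range fun c : G i => (j (c : Y × Y).1, j (c : Y × Y).2))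
      | Sum.inr p => {((p.1 : K), (p.2 : K))}
    haveI : Nonempty (ι ⊕ (N × N)) := ⟨Sum.inr (Classical.arbitrary _)⟩
    obtain ⟨D, hD, hDU⟩ := nat_family C IsCompact (by
      rintro (i | p)
      · exact isClosed_closure.isCompact
      · exact isCompact_singleton)
    refine ⟨D, hD, ?_⟩
    rw [← hDU]
    have hGF : ∀ i (c : G i), F (c : Y × Y).1 (c : Y × Y).2 := by
      intro i c
      have : (c : Y × Y) ∈ ⋃ i, G i := mem_iUnion.2 ⟨i, c.2⟩
      rw [← hG] at this
      exact this
    ext ⟨z, z'⟩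
    simp only [mem_setOf_eq, mem_iUnion]
    constructor
    · rintro (⟨a, b⟩ | ⟨y, y', hyy, rfl, rfl⟩)
      · exact ⟨Sum.inr (⟨z, a⟩, ⟨z', b⟩), rfl⟩
      · have : (y, y') ∈ ⋃ i, G i := by
          rw [← hG]
          exact hyy
        obtain ⟨i, hi⟩ := mem_iUnion.1 this
        exact ⟨Sum.inl i, subset_closure ⟨⟨_, hi⟩, rfl⟩⟩
    · rintro ⟨i | p, hi⟩
      · have hne : (comap (fun c : G i => (j (c : Y × Y).1, j (c : Y × Y).2))
            (𝓝 (z, z'))).NeBot := by
          rw [comap_neBot_iff_frequently]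
          exact mem_closure_iff_frequently.1 hi
        let 𝒰 := Ultrafilter.of (comap (fun c : G i => (j (c : Y × Y).1, j (c : Y × Y).2))
            (𝓝 (z, z')))
        have ht : Tendsto (fun c : G i => (j (c : Y × Y).1, j (c : Y × Y).2)) 𝒰 (𝓝 (z, z')) :=
          tendsto_iff_comap.2 (Ultrafilter.of_le _)
        have hlim : ∀ c : G i, (𝒰 : Filter (G i)) ≤ 𝓝 c → F' z z' := by
          intro c hc
          have hcont : Continuous fun c : G i => (j (c : Y × Y).1, j (c : Y × Y).2) :=
            (hjc.comp (hp1 i).continuous).prodMk (hjc.comp (hp2 i).continuous)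
          have := tendsto_nhds_unique ((hcont.tendsto c).mono_left hc) ht
          obtain ⟨e1, e2⟩ := Prod.ext_iff.1 this
          exact Or.inr ⟨_, _, hGF i c, e1, e2⟩
        by_cases hz : z ∈ range j
        · obtain ⟨y, rfl⟩ := hz
          obtain ⟨c, -, hc⟩ := (isProperMap_iff_ultrafilter.1 (hp1 i)).2 (𝒰 := 𝒰) (y := y)
            (hjconv _ y ((continuous_fst.tendsto _).comp ht))
          exact hlim c hc
        · by_cases hz' : z' ∈ range j
          · obtain ⟨y, rfl⟩ := hz'
            obtain ⟨c, -, hc⟩ := (isProperMap_iff_ultrafilter.1 (hp2 i)).2 (𝒰 := 𝒰) (y := y)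
              (hjconv _ y ((continuous_snd.tendsto _).comp ht))
            exact hlim c hc
          · exact Or.inl ⟨Or.inr hz, Or.inr hz'⟩
      · obtain ⟨e1, e2⟩ := Prod.ext_iff.1 (show (z, z') = ((p.1 : K), (p.2 : K)) from hi)
        simp only at e1 e2
        rw [e1, e2]
        exact Or.inl ⟨p.1.2, p.2.2⟩

end Pool.Agent.H244Z.CB
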