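import Mathlib
import Pool.Agent.Helper281.Sc.Mark
import Pool.Agent.H244Z.CB.GE

set_option autoImplicit false

namespace Pool.Agent.H244Z.CB

open Set Filter Topology TopologicalSpace MeasureTheory

theorem meas_index {X Y ι : Type} [MeasurableSpace X] [MeasurableSpace Y] [MeasurableSpace ι]
    [Countable ι] [MeasurableSingletonClass ι] {c : X → ι} (hc : Measurable c) {F : ι → X → Y}
    (hF : ∀ i, Measurable (F i)) : Measurable fun x => F (c x) x := by
  intro s hs
  have : (fun x => F (c x) x) ⁻¹' s = ⋃ i, c ⁻¹' {i} ∩ F i ⁻¹' s := by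
    ext x
    simp
  rw [this]
  exact MeasurableSet.iUnion fun i => (hc (measurableSet_singleton i)).inter (hF i hs)

theorem meas_least {X : Type} [MeasurableSpace X] (P : ℕ → X → Prop)
    (hP : ∀ n, MeasurableSet {x | P n x}) :
    ∃ c : X → ℕ, Measurable c ∧ ∀ x, (∃ n, P n x) → P (c x) x := by
  classical
  have hex : ∀ x, ∃ n, P n x ∨ ∀ m, ¬ P m x := by
    intro x
    by_cases h : ∃ n, P n x
    · obtain ⟨n, hn⟩ := h
      exact ⟨n, Or.inl hn⟩
    · push Not at h
      exact ⟨0, Or.inr h⟩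
  refine ⟨fun x => Nat.find (hex x), measurable_find hex fun k => ?_, ?_⟩
  · refine (hP k).union ?_
    show MeasurableSet {x | ∀ m, ¬ P m x}
    rw [Set.setOf_forall]
    exact MeasurableSet.iInter fun m => (hP m).compl
  · rintro x ⟨n, hn⟩
    rcases Nat.find_spec (hex x) with h | h
    · exact h
    · exact absurd hn (h n)

theorem exists_inv_on {A B : Type} [MeasurableSpace A] [StandardBorelSpace A] [Nonempty A]
    [MeasurableSpace B] [StandardBorelSpace B] {f : A → B} (hf : Measurable f) {S : Set A}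
    (hS : MeasurableSet S) (hi : InjOn f S) :
    ∃ f' : B → A, Measurable f' ∧ ∀ a ∈ S, f' (f a) = a := by
  haveI := hS.standardBorel
  have he : MeasurableEmbedding (fun a : S => f a) :=
    (hf.comp measurable_subtype_coe).measurableEmbedding
      fun a b h => Subtype.ext (hi a.2 b.2 h)
  obtain ⟨f', h1, h2⟩ := he.exists_measurable_extend (g := fun a : S => (a : A))
    measurable_subtype_coe fun _ => inferInstance
  exact ⟨f', h1, fun a ha => congrFun h2 ⟨a, ha⟩⟩

/-- Borel Schroeder-Bernstein for subsets, remembering the shape of the bijection. -/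
theorem csb {A B : Type} [MeasurableSpace A] [StandardBorelSpace A] [Nonempty A]
    [MeasurableSpace B] [StandardBorelSpace B] [Nonempty B] {S : Set A} {T : Set B}
    (hS : MeasurableSet S) (hT : MeasurableSet T) {f : A → B} {g : B → A} (hf : Measurable f)
    (hg : Measurable g) (hfm : MapsTo f S T) (hgm : MapsTo g T S) (hfi : InjOn f S)
    (hgi : InjOn g T) :
    ∃ (J : A → B) (J' : B → A), Measurable J ∧ Measurable J' ∧ MapsTo J S T ∧ MapsTo J' T S ∧
      (∀ a ∈ S, J' (J a) = a) ∧ (∀ b ∈ T, J (J' b) = b) ∧ ∀ a ∈ S, J a = f a ∨ g (J a) = a := by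
  classical
  obtain ⟨f', hf', hff⟩ := exists_inv_on hf hS hfi
  obtain ⟨g', hg', hgg⟩ := exists_inv_on hg hT hgi
  let Cn : ℕ → Set A := fun n => Nat.rec (S \ g '' T) (fun _ C => g '' (f '' C)) n
  have hC0 : Cn 0 = S \ g '' T := rfl
  have hCs : ∀ n, Cn (n + 1) = g '' (f '' Cn n) := fun n => rfl
  have hCn : ∀ n, Cn n ⊆ S ∧ MeasurableSet (Cn n) := by
    intro n
    induction n with
    | zero => exact ⟨diff_subset, hS.diff (hT.image_of_measurable_injOn hg hgi)⟩
    | succ n ih =>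
      have h1 : f '' Cn n ⊆ T := by
        rintro _ ⟨a, ha, rfl⟩
        exact hfm (ih.1 ha)
      refine ⟨?_, ?_⟩
      · rintro _ ⟨b, hb, rfl⟩
        exact hgm (h1 hb)
      · exact (ih.2.image_of_measurable_injOn hf (hfi.mono ih.1)).image_of_measurable_injOn hg
          (hgi.mono h1)
  let C : Set A := ⋃ n, Cn n
  have hCS : C ⊆ S := iUnion_subset fun n => (hCn n).1
  have hCm : MeasurableSet C := MeasurableSet.iUnion fun n => (hCn n).2
  have hfC : MeasurableSet (f '' C) := hCm.image_of_measurable_injOn hf (hfi.mono hCS)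
  let J : A → B := fun a => if a ∈ C then f a else g' a
  let J' : B → A := fun b => if b ∈ f '' C then f' b else g b
  have h1 : ∀ a ∈ S, a ∉ C → ∃ b ∈ T, g b = a ∧ b ∉ f '' C := by
    intro a ha haC
    have : a ∈ g '' T := by
      by_contra h
      exact haC (mem_iUnion.2 ⟨0, ha, h⟩)
    obtain ⟨b, hb, rfl⟩ := this
    refine ⟨b, hb, rfl, ?_⟩
    rintro ⟨c, hc, rfl⟩
    obtain ⟨n, hn⟩ := mem_iUnion.1 hc
    exact haC (mem_iUnion.2 ⟨n + 1, _, ⟨c, hn, rfl⟩, rfl⟩)
  have h2 : ∀ b ∈ T, b ∉ f '' C → g b ∉ C := by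
    intro b hb hbC h
    obtain ⟨_ | n, hn⟩ := mem_iUnion.1 h
    · exact hn.2 ⟨b, hb, rfl⟩
    · obtain ⟨_, ⟨c, hc, rfl⟩, he⟩ := hn
      exact hbC ⟨c, mem_iUnion.2 ⟨n, hc⟩, hgi (hfm ((hCn n).1 hc)) hb he⟩
  have j1 : ∀ a ∈ C, J a = f a := fun a ha => if_pos ha
  have j2 : ∀ a, a ∉ C → J a = g' a := fun a ha => if_neg ha
  have k1 : ∀ a ∈ C, J' (f a) = a := fun a ha =>
    (if_pos ⟨a, ha, rfl⟩ : J' (f a) = f' (f a)).trans (hff a (hCS ha))
  have k2 : ∀ b, b ∉ f '' C → J' b = g b := fun b hb => if_neg hb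
  refine ⟨J, J', Measurable.ite hCm hf hg', Measurable.ite hfC hf' hg, ?_, ?_, ?_, ?_, ?_⟩
  · intro a ha
    by_cases h : a ∈ C
    · rw [j1 a h]; exact hfm ha
    · obtain ⟨b, hb, rfl, -⟩ := h1 a ha h
      rw [j2 _ h, hgg b hb]; exact hb
  · intro b hb
    by_cases h : b ∈ f '' C
    · obtain ⟨c, hc, rfl⟩ := h
      rw [k1 c hc]; exact hCS hc
    · rw [k2 b h]; exact hgm hb
  · intro a ha
    by_cases h : a ∈ C
    · rw [j1 a h, k1 a h]
    · obtain ⟨b, hb, rfl, hb'⟩ := h1 a ha h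
      rw [j2 _ h, hgg b hb, k2 b hb']
  · intro b hb
    by_cases h : b ∈ f '' C
    · obtain ⟨c, hc, rfl⟩ := h
      rw [k1 c hc, j1 c hc]
    · rw [k2 b h, j2 _ (h2 b hb h), hgg b hb]
  · intro a ha
    by_cases h : a ∈ C
    · exact Or.inl (j1 a h)
    · obtain ⟨b, hb, rfl, -⟩ := h1 a ha h
      right
      rw [j2 _ h, hgg b hb]

/-- `E` is compressible on the set `S`. -/
def Compr {X : Type} [MeasurableSpace X] (E : X → X → Prop) (S : Set X) : Prop :=
  ∃ β : ℕ → X → X, (∀ k, Measurable (β k)) ∧ (∀ k, ∀ x ∈ S, β k x ∈ S ∧ E x (β k x)) ∧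
    ∀ k k', ∀ x ∈ S, ∀ x' ∈ S, β k x = β k' x' → k = k' ∧ x = x'

theorem compr_of_two {X : Type} [MeasurableSpace X] {E : X → X → Prop} (hE : Equivalence E)
    {S : Set X} (a : Bool → X → X) (ha : ∀ b, Measurable (a b))
    (hS : ∀ b, ∀ x ∈ S, a b x ∈ S ∧ E x (a b x))
    (hi : ∀ b b', ∀ x ∈ S, ∀ x' ∈ S, a b x = a b' x' → b = b' ∧ x = x') : Compr E S := by
  have h1 : ∀ k, ∀ x ∈ S, (a true)^[k] (a false x) ∈ S ∧ E x ((a true)^[k] (a false x)) := by
    intro k x hx
    induction k with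
    | zero => exact hS false x hx
    | succ k ih =>
      rw [Function.iterate_succ_apply']
      exact ⟨(hS true _ ih.1).1, hE.trans ih.2 (hS true _ ih.1).2⟩
  refine ⟨fun k x => (a true)^[k] (a false x), fun k => ((ha true).iterate k).comp (ha false),
    h1, ?_⟩
  intro k
  induction k with
  | zero =>
    rintro (_ | k') x hx x' hx' h
    · exact ⟨rfl, (hi _ _ x hx x' hx' h).2⟩
    · simp only [Function.iterate_succ_apply', Function.iterate_zero, id] at h
      exact absurd (hi _ _ x hx _ (h1 k' x' hx').1 h).1 (by simp)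
  | succ k ih =>
    rintro (_ | k') x hx x' hx' h
    · simp only [Function.iterate_succ_apply', Function.iterate_zero, id] at h
      exact absurd (hi _ _ _ (h1 k x hx).1 x' hx' h).1 (by simp)
    · simp only [Function.iterate_succ_apply'] at h
      have := ih k' x hx x' hx' (hi _ _ _ (h1 k x hx).1 _ (h1 k' x' hx').1 h).2
      exact ⟨by rw [this.1], this.2⟩

theorem sat_meas {X : Type} [MeasurableSpace X] {g : ℕ → X → X} (hg : ∀ i, Measurable (g i))
    {S : Set X} (hS : MeasurableSet S) : MeasurableSet {x | ∃ i, g i x ∈ S} := by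
  rw [Set.setOf_exists]
  exact MeasurableSet.iUnion fun i => hg i hS

theorem sat_inv {X : Type} {E : X → X → Prop} (hE : Equivalence E) {g : ℕ → X → X}
    (hgE : ∀ x y, E x y ↔ ∃ i, g i x = y) {S : Set X} {x y : X} (hxy : E x y)
    (hx : x ∈ {x | ∃ i, g i x ∈ S}) : y ∈ {x | ∃ i, g i x ∈ S} := by
  obtain ⟨i, hi⟩ := hx
  obtain ⟨j, hj⟩ := (hgE y (g i x)).1 (hE.trans (hE.symm hxy) ((hgE _ _).2 ⟨i, rfl⟩))
  exact ⟨j, by rw [hj]; exact hi⟩

theorem compr_sat {X : Type} [MeasurableSpace X] {E : X → X → Prop} (hE : Equivalence E)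
    {g : ℕ → X → X} (hg : ∀ i, Measurable (g i)) (hgi : ∀ i x, g i (g i x) = x)
    (hgE : ∀ x y, E x y ↔ ∃ i, g i x = y) {S : Set X} (hS : MeasurableSet S) (β : ℕ → X → X)
    (hβ : ∀ k, Measurable (β k)) (hβE : ∀ k, ∀ x ∈ S, E x (β k x))
    (hi : ∀ k k', ∀ x ∈ S, ∀ x' ∈ S, β k x = β k' x' → k = k' ∧ x = x') :
    Compr E {x | ∃ i, g i x ∈ S} := by
  obtain ⟨c, hc, hcS⟩ := meas_least (fun i x => g i x ∈ S) fun i => hg i hS
  refine ⟨fun k x => β (Nat.pair (c x) k) (g (c x) x), fun k =>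
    meas_index (F := fun i x => β (Nat.pair i k) (g i x)) hc fun i => (hβ _).comp (hg i), ?_, ?_⟩
  · intro k x hx
    have : E x (β (Nat.pair (c x) k) (g (c x) x)) :=
      hE.trans ((hgE _ _).2 ⟨_, rfl⟩) (hβE _ _ (hcS x hx))
    exact ⟨sat_inv hE hgE this hx, this⟩
  · intro k k' x hx x' hx' h
    obtain ⟨h1, h2⟩ := hi _ _ _ (hcS x hx) _ (hcS x' hx') h
    obtain ⟨h3, h4⟩ := Nat.pair_eq_pair.1 h1
    refine ⟨h4, ?_⟩
    rw [← hgi (c x) x, h2, h3, hgi]

/-- a compressible set splits as a product with the natural numbers -/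
theorem Compr.split {X : Type} [MeasurableSpace X] [StandardBorelSpace X] [Nonempty X]
    {E : X → X → Prop} (hE : Equivalence E) {W : Set X} (hW : MeasurableSet W) (h : Compr E W) :
    ∃ (u : X → X) (v : X → ℕ) (w : ℕ → X → X), Measurable u ∧ Measurable v ∧
      (∀ k, Measurable (w k)) ∧ (∀ x ∈ W, u x ∈ W ∧ E x (u x) ∧ w (v x) (u x) = x) ∧
      ∀ k, ∀ y ∈ W, w k y ∈ W ∧ u (w k y) = y ∧ v (w k y) = k := by
  obtain ⟨β, hβ, hβW, hβi⟩ := h
  obtain ⟨J, J', hJ, hJ', m1, m2, e1, e2, e3⟩ := csb (S := W) (T := W ×ˢ (univ : Set ℕ))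
    (f := fun x => (x, 0)) (g := fun p => β p.2 p.1) hW (hW.prod MeasurableSet.univ)
    (measurable_id.prodMk measurable_const)
    (meas_index (c := Prod.snd) (F := fun k (p : X × ℕ) => β k p.1) measurable_snd
      fun k => (hβ k).comp measurable_fst)
    (fun x hx => ⟨hx, trivial⟩) (fun p hp => (hβW _ _ hp.1).1)
    (fun x _ y _ h => congrArg Prod.fst h)
    (fun p hp q hq h => by
      obtain ⟨h1, h2⟩ := hβi _ _ _ hp.1 _ hq.1 h
      exact Prod.ext h2 h1)
  refine ⟨fun x => (J x).1, fun x => (J x).2, fun k y => J' (y, k), measurable_fst.comp hJ,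
    measurable_snd.comp hJ, fun k => hJ'.comp (measurable_id.prodMk measurable_const), ?_, ?_⟩
  · intro x hx
    refine ⟨(m1 hx).1, ?_, e1 x hx⟩
    show E x (J x).1
    rcases e3 x hx with h | h
    · rw [h]; exact hE.refl x
    · have := (hβW (J x).2 _ (m1 hx).1).2
      rw [h] at this
      exact hE.symm this
  · intro k y hy
    have := e2 (y, k) ⟨hy, trivial⟩
    exact ⟨m2 (show (y, k) ∈ W ×ˢ (univ : Set ℕ) from ⟨hy, trivial⟩), congrArg Prod.fst this,
      congrArg Prod.snd this⟩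

/-- an embedding of a compressible relation can be turned into an invariant embedding -/
theorem inv_embed {X Z : Type} [MeasurableSpace X] [StandardBorelSpace X] [Nonempty X]
    [MeasurableSpace Z] [StandardBorelSpace Z] [Nonempty Z] {E : X → X → Prop}
    (hE : Equivalence E) {g : ℕ → X → X} (hg : ∀ i, Measurable (g i))
    (hgi : ∀ i x, g i (g i x) = x) (hgE : ∀ x y, E x y ↔ ∃ i, g i x = y) {G : Z → Z → Prop}
    {S : Set Z} (hS : MeasurableSet S) (hc : Compr G S) {j : Z → X} (hj : Measurable j)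
    (hji : Function.Injective j) (hjE : ∀ z z', E (j z) (j z') ↔ G z z') :
    ∃ (T : Set X) (J : Z → X) (J' : X → Z), MeasurableSet T ∧ (∀ x y, E x y → x ∈ T → y ∈ T) ∧
      Measurable J ∧ Measurable J' ∧ MapsTo J S T ∧ MapsTo J' T S ∧ (∀ z ∈ S, J' (J z) = z) ∧
      (∀ x ∈ T, J (J' x) = x) ∧ ∀ z ∈ S, ∀ z' ∈ S, (E (J z) (J z') ↔ G z z') := by
  obtain ⟨β, hβ, hβS, hβi⟩ := hc
  have hjS : MeasurableSet (j '' S) := hS.image_of_measurable_injOn hj hji.injOn
  obtain ⟨c, hc, hcS⟩ := meas_least (fun i x => g i x ∈ j '' S) fun i => hg i hjS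
  obtain ⟨j', hj', hjj⟩ := exists_inv_on hj hS hji.injOn
  have hj'S : ∀ x ∈ {x | ∃ i, g i x ∈ j '' S}, j' (g (c x) x) ∈ S ∧ j (j' (g (c x) x)) = g (c x) x := by
    intro x hx
    obtain ⟨z, hz, he⟩ := hcS x hx
    rw [← he, hjj z hz]
    exact ⟨hz, rfl⟩
  obtain ⟨J, J', hJ, hJ', m1, m2, e1, e2, e3⟩ := csb (S := S) (T := {x | ∃ i, g i x ∈ j '' S})
    (f := j) (g := fun x => β (c x) (j' (g (c x) x))) hS (sat_meas hg hjS) hj
    (meas_index (F := fun i x => β i (j' (g i x))) hc fun i => (hβ i).comp (hj'.comp (hg i)))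
    (fun z hz => by
      obtain ⟨i, hi⟩ := (hgE _ _).1 (hE.refl (j z))
      exact ⟨i, z, hz, hi.symm⟩)
    (fun x hx => (hβS _ _ (hj'S x hx).1).1) hji.injOn
    (fun x hx x' hx' h => by
      obtain ⟨h1, h2⟩ := hβi _ _ _ (hj'S x hx).1 _ (hj'S x' hx').1 h
      have h3 := congrArg j h2
      rw [(hj'S x hx).2, (hj'S x' hx').2] at h3
      rw [← hgi (c x) x, h3, h1, hgi])
  have key : ∀ z ∈ S, E (j z) (J z) := by
    intro z hz
    rcases e3 z hz with h | h
    · rw [h]; exact hE.refl _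
    · have h1 := (hβS (c (J z)) _ (hj'S _ (m1 hz)).1).2
      rw [h, ← hjE, (hj'S _ (m1 hz)).2] at h1
      exact hE.symm (hE.trans ((hgE _ _).2 ⟨_, rfl⟩) h1)
  refine ⟨_, J, J', sat_meas hg hjS, fun x y h hx => sat_inv hE hgE h hx, hJ, hJ', m1, m2, e1, e2,
    fun z hz z' hz' => ?_⟩
  rw [← hjE]
  exact ⟨fun h => hE.trans (key z hz) (hE.trans h (hE.symm (key z' hz'))),
    fun h => hE.trans (hE.symm (key z hz)) (hE.trans h (key z' hz'))⟩

/-- Every aperiodic countable Borel equivalence relation has a Borel perfect matching. -/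
theorem perfect_matching {X : Type} [MeasurableSpace X] [StandardBorelSpace X]
    {E : X → X → Prop} (hE : IsAperiodicCBER E) :
    ∃ ι : X → X, Measurable ι ∧ ∀ x, ι (ι x) = x ∧ ι x ≠ x ∧ E x (ι x) := by
  classical
  rcases isEmpty_or_nonempty X with hX | hX
  · exact ⟨id, measurable_id, fun x => hX.elim x⟩
  obtain ⟨g, hg, hgi, -, hgE⟩ := exists_invol hE.equiv hE.borel hE.countable
  have hEq : E = fun x y => ∃ n, g n x = y := by
    funext x y
    exact propext (hgE x y)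
  obtain ⟨κ, hκm, hκ⟩ := Pool.Agent.Helper281.Bo.exists_class_surjective g hg (hEq ▸ hE.equiv)
  obtain ⟨m, hm0, hms⟩ : ∃ m : ℕ → X → X, m 0 = id ∧ ∀ (k : ℕ) (x : X),
      m (k + 1) x = if m k x = x ∧ m k (g k x) = g k x then g k x else m k x :=
    ⟨fun k => Nat.rec (motive := fun _ => X → X) id
      (fun k mk x => if mk x = x ∧ mk (g k x) = g k x then g k x else mk x) k, rfl,
      fun k x => rfl⟩
  have hm : ∀ k, Measurable (m k) ∧ ∀ x, m k (m k x) = x ∧ E x (m k x) := by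
    intro k
    induction k with
    | zero => rw [hm0]; exact ⟨measurable_id, fun x => ⟨rfl, hE.equiv.refl x⟩⟩
    | succ k ih =>
      refine ⟨?_, fun x => ?_⟩
      · rw [funext (hms k)]
        exact Measurable.ite ((measurableSet_eq_fun ih.1 measurable_id).inter
          (measurableSet_eq_fun (ih.1.comp (hg k)) (hg k))) (hg k) ih.1
      by_cases h : m k x = x ∧ m k (g k x) = g k x
      · rw [hms k x, if_pos h, hms, if_pos ⟨h.2, by rw [hgi]; exact h.1⟩]
        exact ⟨hgi k x, (hgE _ _).2 ⟨k, rfl⟩⟩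
      · rw [hms k x, if_neg h]
        refine ⟨?_, (ih.2 x).2⟩
        rw [hms, if_neg, (ih.2 x).1]
        rintro ⟨h1, h2⟩
        rw [(ih.2 x).1] at h1
        rw [← h1] at h2
        exact h ⟨h1.symm, h2⟩
  have hst : ∀ k x, m k x ≠ x → ∀ l, k ≤ l → m l x = m k x := by
    intro k x hx l hl
    induction l, hl using Nat.le_induction with
    | base => rfl
    | succ l _ ih => rw [hms, if_neg (fun h => hx (ih ▸ h.1)), ih]
  obtain ⟨c, hc, hcm⟩ := meas_least (fun k x => m k x ≠ x)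
    fun k => (measurableSet_eq_fun (hm k).1 measurable_id).compl
  let M : X → X := fun x => m (c x) x
  have hM : Measurable M := meas_index hc fun k => (hm k).1
  have hMk : ∀ k x, m k x ≠ x → M x = m k x := by
    intro k x hx
    have h1 := hcm x ⟨k, hx⟩
    rcases le_total k (c x) with h | h
    · exact hst k x hx _ h
    · exact (hst _ x h1 k h).symm
  let S : Set X := {x | ∀ k, m k x = x}
  have hSm : MeasurableSet S := by
    show MeasurableSet {x | ∀ k, m k x = x}
    rw [Set.setOf_forall]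
    exact MeasurableSet.iInter fun k => measurableSet_eq_fun (hm k).1 measurable_id
  have hSu : ∀ x ∈ S, ∀ y ∈ S, E x y → x = y := by
    intro x hx y hy hxy
    obtain ⟨k, rfl⟩ := (hgE _ _).1 hxy
    have := hms k x
    rw [if_pos ⟨hx k, hy k⟩, hx (k + 1)] at this
    exact this
  have hinf : ∀ x, {y | ∃ n, g n x = y}.Infinite := by
    intro x
    have := hE.infinite x
    rwa [hEq] at this
  choose d hd hdκ using fun k => meas_least (fun i x => κ (g i x) = k)
    fun i => measurableSet_eq_fun (hκm.comp (hg i)) measurable_const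
  have hW := compr_sat hE.equiv hg hgi hgE hSm (fun k x => g (d k x) x)
    (fun k => meas_index (hd k) hg) (fun k x _ => (hgE _ _).2 ⟨_, rfl⟩)
    (fun k k' x hx x' hx' h => by
      refine ⟨?_, hSu x hx x' hx' ?_⟩
      · rw [← hdκ k x (hκ x (hinf x) k), ← hdκ k' x' (hκ x' (hinf x') k')]
        exact congrArg κ h
      · have h1 : E x (g (d k x) x) := (hgE _ _).2 ⟨_, rfl⟩
        have h2 : E x' (g (d k' x') x') := (hgE _ _).2 ⟨_, rfl⟩
        have h3 : g (d k x) x = g (d k' x') x' := h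
        rw [h3] at h1
        exact hE.equiv.trans h1 (hE.equiv.symm h2))
  obtain ⟨u, v, w, hu, hv, hw, h1, h2⟩ := hW.split hE.equiv (sat_meas hg hSm)
  set W : Set X := {x | ∃ i, g i x ∈ S} with hWdef
  let sw : ℕ → ℕ := fun k => if k % 2 = 0 then k + 1 else k - 1
  have hsw : ∀ k, sw (sw k) = k ∧ sw k ≠ k := by
    intro k
    simp only [sw]
    split_ifs <;> omega
  let ι : X → X := fun x => if x ∈ W then w (sw (v x)) (u x) else M x
  refine ⟨ι, Measurable.ite (sat_meas hg hSm)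
    (meas_index (F := fun k x => w (sw k) (u x)) hv fun k => (hw _).comp hu) hM, fun x => ?_⟩
  by_cases hx : x ∈ W
  · have e : ι x = w (sw (v x)) (u x) := if_pos hx
    obtain ⟨a1, a2, a3⟩ := h1 x hx
    obtain ⟨b1, b2, b3⟩ := h2 (sw (v x)) _ a1
    rw [e]
    refine ⟨?_, fun h => ?_, ?_⟩
    · have : ι (w (sw (v x)) (u x)) = w (sw (v (w (sw (v x)) (u x)))) (u (w (sw (v x)) (u x))) :=
        if_pos b1
      rw [this, b2, b3, (hsw _).1, a3]
    · rw [h] at b3
      exact (hsw _).2 b3.symm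
    · have := (h1 _ b1).2.1
      rw [b2] at this
      exact hE.equiv.trans a2 (hE.equiv.symm this)
  · have e : ι x = M x := if_neg hx
    have hxS : ∃ k, m k x ≠ x := by
      by_contra h
      push Not at h
      obtain ⟨i, hi⟩ := (hgE _ _).1 (hE.equiv.refl x)
      exact hx ⟨i, by rw [hi]; exact h⟩
    obtain ⟨k, hk⟩ := hxS
    rw [e, hMk k x hk]
    have hE' := ((hm k).2 x).2
    have hx' : m k x ∉ W := fun h => hx (sat_inv hE.equiv hgE (hE.equiv.symm hE') h)
    refine ⟨?_, hk, hE'⟩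
    have e' : ι (m k x) = M (m k x) := if_neg hx'
    rw [e', hMk k _ (by rw [((hm k).2 x).1]; exact hk.symm), ((hm k).2 x).1]

end Pool.Agent.H244Z.CB
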