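import Mathlib
import Pool.Agent.H244Z.CB.SB

set_option autoImplicit false

namespace Pool.Agent.H244Z.CB

open Set Filter Topology TopologicalSpace MeasureTheory

/-- block boundaries -/
def hh : ℕ → ℕ
  | 0 => 0
  | n + 1 => hh n + n + 3

theorem hh_strict : StrictMono hh := strictMono_nat_of_lt_succ fun n => by
  simp only [hh]; omega

theorem hh_mono {n m : ℕ} (h : n ≤ m) : hh n ≤ hh m := hh_strict.monotone h

theorem le_hh (n : ℕ) : n ≤ hh n := hh_strict.le_apply

/-- the block `n` of `o` vanishes -/
def zone (n : ℕ) (o : ℕ → Bool) : Prop := ∀ j, hh n ≤ j → j < hh (n + 1) → o j = false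

theorem zone_congr {n : ℕ} {o o' : ℕ → Bool} (h : ∀ j, hh n ≤ j → j < hh (n + 1) → o j = o' j) :
    zone n o ↔ zone n o' :=
  ⟨fun hz j h1 h2 => h j h1 h2 ▸ hz j h1 h2, fun hz j h1 h2 => (h j h1 h2).trans (hz j h1 h2)⟩

theorem zone_clopen (n : ℕ) : IsClopen {o : ℕ → Bool | zone n o} := by
  have : {o : ℕ → Bool | zone n o} =
      ⋂ j ∈ Finset.Ico (hh n) (hh (n + 1)), (fun o : ℕ → Bool => o j) ⁻¹' {false} := by
    ext o
    simp [zone]
  rw [this]
  exact isClopen_biInter_finset fun j _ => (isClopen_discrete _).preimage (continuous_apply j)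

theorem zone_meas (n : ℕ) : MeasurableSet {o : ℕ → Bool | zone n o} :=
  (zone_clopen n).isOpen.measurableSet

/-- addresses and moves inside finite blocks of the classes -/
structure BD {X : Type} [MeasurableSpace X] (E : X → X → Prop) where
  π : X → ℕ → Bool
  mv : ℕ → (ℕ → Bool) → X → X
  mπ : Measurable π
  mmv : ∀ n o, Measurable (mv n o)
  a1 : ∀ n o x j, π (mv n o x) j = if j < hh n then o j else π x j
  a2 : ∀ n n' o o' x, n ≤ n' → mv n' o' (mv n o x) = mv n' o' x
  a3 : ∀ n x, mv n (π x) x = x
  a4 : ∀ n o o' x, (∀ j < hh n, o j = o' j) → mv n o x = mv n o' x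
  a5 : ∀ n o x, E x (mv n o x)

theorem matching_on {X : Type} [MeasurableSpace X] [StandardBorelSpace X]
    {E : X → X → Prop} (hE : IsAperiodicCBER E) {T : Set X} (hT : MeasurableSet T)
    (hi : ∀ x, {y | y ∈ T ∧ E x y}.Infinite) :
    ∃ ι : X → X, Measurable ι ∧ (∀ x, E x (ι x)) ∧ ∀ x ∈ T, ι x ∈ T ∧ ι (ι x) = x ∧ ι x ≠ x := by
  classical
  haveI := hT.standardBorel
  have hE' : IsAperiodicCBER (fun x y : T => E x y) := by
    refine ⟨⟨fun x => hE.equiv.refl _, fun h => hE.equiv.symm h, fun h h' => hE.equiv.trans h h'⟩,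
      ?_, fun x => ?_, fun x => ?_⟩
    · exact ((measurable_subtype_coe.comp measurable_fst).prodMk
        (measurable_subtype_coe.comp measurable_snd)) hE.borel
    · exact (hE.countable x).preimage Subtype.val_injective
    · refine Infinite.of_image Subtype.val ((hi x).mono ?_)
      rintro y ⟨h1, h2⟩
      exact ⟨⟨y, h1⟩, h2, rfl⟩
  obtain ⟨ι, hι, h⟩ := perfect_matching hE'
  refine ⟨fun x => if hx : x ∈ T then (ι ⟨x, hx⟩ : X) else x,
    Measurable.dite (f := fun x : T => (ι x : X)) (g := fun x => (x : X))
      (measurable_subtype_coe.comp hι) measurable_subtype_coe hT, fun x => ?_, fun x hx => ?_⟩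
  · by_cases hx : x ∈ T
    · simp only [dif_pos hx]
      exact (h ⟨x, hx⟩).2.2
    · simp only [dif_neg hx]
      exact hE.equiv.refl x
  · simp only [dif_pos hx]
    refine ⟨(ι ⟨x, hx⟩).2, ?_, fun he => (h ⟨x, hx⟩).2.1 (Subtype.ext he)⟩
    rw [dif_pos (ι ⟨x, hx⟩).2]
    exact congrArg Subtype.val (h ⟨x, hx⟩).1

/-- projection to the level `n` representatives -/
def prj {X : Type} (ι : ℕ → X → X) (b : ℕ → X → Bool) : ℕ → X → X
  | 0, x => x
  | n + 1, x => if b n (prj ι b n x) then ι n (prj ι b n x) else prj ι b n x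

/-- the point with a given address below a representative -/
def dsc {X : Type} (ι : ℕ → X → X) (o : ℕ → Bool) : ℕ → X → X
  | 0, t => t
  | n + 1, t => dsc ι o n (if o n then ι n t else t)

theorem exists_BD {X : Type} [MeasurableSpace X] [StandardBorelSpace X]
    {E : X → X → Prop} (hE : IsAperiodicCBER E) : Nonempty (BD E) := by
  classical
  let e : X → ℝ := embeddingReal X
  have he : Measurable e := measurable_embeddingReal X
  have hei : Function.Injective e := (measurableEmbedding_embeddingReal X).injective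
  let S := {T : Set X // MeasurableSet T ∧ ∀ x, {y | y ∈ T ∧ E x y}.Infinite}
  choose I hI hIE hIT using fun s : S => matching_on hE s.2.1 s.2.2
  have hnx : ∀ s : S, MeasurableSet {x | x ∈ s.1 ∧ ¬ e (I s x) < e x} ∧
      ∀ x, {y | y ∈ {x | x ∈ s.1 ∧ ¬ e (I s x) < e x} ∧ E x y}.Infinite := by
    intro s
    refine ⟨s.2.1.inter (measurableSet_lt (he.comp (hI s)) he).compl, fun x hfin => ?_⟩
    refine s.2.2 x ((hfin.union (hfin.image (I s))).subset ?_)
    rintro y ⟨h1, h2⟩
    by_cases h : e (I s y) < e y
    · right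
      refine ⟨I s y, ⟨⟨(hIT s y h1).1, ?_⟩, hE.equiv.trans h2 (hIE s y)⟩, (hIT s y h1).2.1⟩
      rw [(hIT s y h1).2.1]
      exact not_lt.2 h.le
    · exact Or.inl ⟨⟨h1, h⟩, h2⟩
  let nx : S → S := fun s => ⟨_, hnx s⟩
  let s0 : S := ⟨univ, MeasurableSet.univ, fun x => (hE.infinite x).mono fun y hy => ⟨trivial, hy⟩⟩
  let st : ℕ → S := fun n => Nat.rec s0 (fun _ s => nx s) n
  let T : ℕ → Set X := fun n => (st n).1
  let ι : ℕ → X → X := fun n => I (st n)
  let b : ℕ → X → Bool := fun n x => decide (e (ι n x) < e x)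
  have hT : ∀ n x, x ∈ T (n + 1) ↔ x ∈ T n ∧ b n x = false := by
    intro n x
    simp only [b, decide_eq_false_iff_not]
    rfl
  have hι : ∀ n, ∀ x ∈ T n, ι n x ∈ T n ∧ ι n (ι n x) = x ∧ ι n x ≠ x := fun n => hIT (st n)
  have hb : ∀ n, ∀ x ∈ T n, b n (ι n x) = !(b n x) := by
    intro n x hx
    have h1 := (hι n x hx).2.1
    have h2 : e (ι n x) ≠ e x := fun h => (hι n x hx).2.2 (hei h)
    simp only [b, h1]
    rcases lt_or_gt_of_ne h2 with h | h
    · simp [h, not_lt.2 h.le]
    · simp [h, not_lt.2 h.le]
  have hbm : ∀ n, Measurable (b n) := by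
    intro n
    refine measurable_to_bool ?_
    have : b n ⁻¹' {true} = {x | e (ι n x) < e x} := by
      ext x; simp [b]
    rw [this]
    exact measurableSet_lt (he.comp (hI _)) he
  have hpm : ∀ n, Measurable (prj ι b n) := by
    intro n
    induction n with
    | zero => exact measurable_id
    | succ n ih =>
      exact Measurable.ite (measurableSet_eq_fun ((hbm n).comp ih) measurable_const)
        ((hI _).comp ih) ih
  have hdm : ∀ o n, Measurable (dsc ι o n) := by
    intro o n
    induction n with
    | zero => exact measurable_id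
    | succ n ih =>
      refine ih.comp (f := fun t => if o n then ι n t else t) ?_
      cases o n with
      | true => exact hI _
      | false => exact measurable_id
  have hpT : ∀ n x, prj ι b n x ∈ T n := by
    intro n x
    induction n with
    | zero => trivial
    | succ n ih =>
      rw [hT]
      cases h : b n (prj ι b n x) with
      | true =>
        simp only [prj, h, if_true]
        exact ⟨(hι n _ ih).1, by rw [hb n _ ih, h]; rfl⟩
      | false =>
        simp only [prj, h]
        exact ⟨ih, h⟩
  have hpd : ∀ o n, ∀ t ∈ T n, prj ι b n (dsc ι o n t) = t ∧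
      ∀ j < n, b j (prj ι b j (dsc ι o n t)) = o j := by
    intro o n
    induction n with
    | zero => exact fun t _ => ⟨rfl, fun j hj => absurd hj (Nat.not_lt_zero j)⟩
    | succ n ih =>
      intro t ht
      obtain ⟨ht1, ht2⟩ := (hT n t).1 ht
      have h1 : (if o n then ι n t else t) ∈ T n := by
        split_ifs
        · exact (hι n t ht1).1
        · exact ht1
      have h2 : b n (if o n then ι n t else t) = o n := by
        cases o n with
        | true => simp [hb n t ht1, ht2]
        | false => simpa using ht2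
      obtain ⟨i1, i2⟩ := ih _ h1
      refine ⟨?_, fun j hj => ?_⟩
      · simp only [prj, dsc, i1, h2]
        cases o n with
        | true => simpa using (hι n t ht1).2.1
        | false => simp
      · rcases Nat.lt_succ_iff_lt_or_eq.1 hj with h | rfl
        · exact i2 j h
        · simp only [dsc, i1, h2]
  have hpp : ∀ n x y, prj ι b n x = prj ι b n y → ∀ m, n ≤ m → prj ι b m x = prj ι b m y := by
    intro n x y h m hm
    induction m, hm using Nat.le_induction with
    | base => exact h
    | succ m _ ih => simp only [prj, ih]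
  have hpE : ∀ n x, E x (prj ι b n x) := by
    intro n x
    induction n with
    | zero => exact hE.equiv.refl x
    | succ n ih =>
      simp only [prj]
      split_ifs
      · exact hE.equiv.trans ih (hIE _ _)
      · exact ih
  have hdE : ∀ o n t, E t (dsc ι o n t) := by
    intro o n
    induction n with
    | zero => exact fun t => hE.equiv.refl t
    | succ n ih =>
      intro t
      refine hE.equiv.trans ?_ (ih _)
      split_ifs
      · exact hIE _ _
      · exact hE.equiv.refl t
  have hd3 : ∀ n x, dsc ι (fun j => b j (prj ι b j x)) n (prj ι b n x) = x := by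
    intro n x
    induction n with
    | zero => rfl
    | succ n ih =>
      simp only [dsc, prj]
      cases h : b n (prj ι b n x) with
      | true =>
        simp only [if_true]
        rw [(hι n _ (hpT n x)).2.1, ih]
      | false => simpa using ih
  have hd4 : ∀ o o' n t, (∀ j < n, o j = o' j) → dsc ι o n t = dsc ι o' n t := by
    intro o o' n
    induction n with
    | zero => exact fun t _ => rfl
    | succ n ih =>
      intro t h
      simp only [dsc, h n (Nat.lt_succ_self n)]
      exact ih _ fun j hj => h j (Nat.lt_succ_of_lt hj)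
  exact ⟨{
    π := fun x j => b j (prj ι b j x)
    mv := fun n o x => dsc ι o (hh n) (prj ι b (hh n) x)
    mπ := measurable_pi_lambda _ fun j => (hbm j).comp (hpm j)
    mmv := fun n o => (hdm o _).comp (hpm _)
    a1 := fun n o x j => by
      split_ifs with h
      · exact (hpd o _ _ (hpT _ x)).2 j h
      · rw [hpp _ _ x (hpd o _ _ (hpT _ x)).1 j (not_lt.1 h)]
    a2 := fun n n' o o' x h => by
      rw [hpp _ _ x (hpd o _ _ (hpT _ x)).1 _ (hh_mono h)]
    a3 := fun n x => hd3 _ x
    a4 := fun n o o' x h => hd4 o o' _ _ h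
    a5 := fun n o x => hE.equiv.trans (hpE _ x) (hdE _ _ _) }⟩

end Pool.Agent.H244Z.CB
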