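import Mathlib
import Pool.Agent.H244Z.CB.Dy

set_option autoImplicit false

namespace Pool.Agent.H244Z.CB

open Set Filter Topology TopologicalSpace MeasureTheory

/-- infinitely many vanishing blocks -/
def InfZ (o : ℕ → Bool) : Prop := ∀ N, ∃ n ≥ N, zone n o

theorem infZ_meas : MeasurableSet {o : ℕ → Bool | InfZ o} := by
  simp only [InfZ, Set.setOf_forall, Set.setOf_exists]
  refine MeasurableSet.iInter fun N => MeasurableSet.iUnion fun n => ?_
  by_cases h : n ≥ N
  · simpa [h] using zone_meas n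
  · simp [h]

theorem infZ_congr {o o' : ℕ → Bool} {k : ℕ} (h : ∀ j, hh k ≤ j → o j = o' j) (ho : InfZ o) :
    InfZ o' := by
  intro N
  obtain ⟨n, hn, hz⟩ := ho (max N k)
  exact ⟨n, le_trans (le_max_left _ _) hn, (zone_congr fun j h1 _ =>
    h j ((hh_mono (le_trans (le_max_right _ _) hn)).trans h1)).1 hz⟩

open Classical in
/-- the compressing change of address -/
noncomputable def al (b : Bool) (n : ℕ) (o : ℕ → Bool) (j : ℕ) : Bool :=
  if j < hh n then (if ∃ m, hh m = j then true else o j)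
  else if hh n + 2 ≤ j ∧ j < hh n + 2 + n then o (hh (j - (hh n + 2)))
  else if j = hh n + 2 + n then b else o j

theorem al_meas (b : Bool) (n : ℕ) : Measurable (al b n) := by
  refine measurable_pi_lambda _ fun j => ?_
  unfold al
  split_ifs
  · exact measurable_const
  · exact measurable_pi_apply _
  · exact measurable_pi_apply _
  · exact measurable_const
  · exact measurable_pi_apply _

theorem al_tail (b : Bool) (n : ℕ) (o : ℕ → Bool) (j : ℕ) (hj : hh (n + 1) ≤ j) :
    al b n o j = o j := by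
  simp only [hh] at hj
  unfold al
  rw [if_neg (by omega), if_neg (by omega), if_neg (by omega)]

theorem al_inj {b b' : Bool} {n n' : ℕ} {o o' : ℕ → Bool} (hz : zone n o) (hz' : zone n' o')
    (h : al b n o = al b' n' o') : b = b' ∧ n = n' ∧ o = o' := by
  have key : ∀ {b b' : Bool} {n n' : ℕ} {o o' : ℕ → Bool}, zone n o →
      al b n o = al b' n' o' → ¬ n < n' := by
    intro b b' n n' o o' hz h hlt
    have h1 := congrFun h (hh n)
    unfold al at h1
    rw [if_neg (lt_irrefl _), if_neg (by omega), if_neg (by omega), if_pos (hh_strict hlt),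
      if_pos ⟨n, rfl⟩, hz _ le_rfl (hh_strict (Nat.lt_succ_self n))] at h1
    simp at h1
  obtain rfl : n = n' := le_antisymm (not_lt.1 (key hz' h.symm)) (not_lt.1 (key hz h))
  refine ⟨?_, rfl, ?_⟩
  · have h1 := congrFun h (hh n + 2 + n)
    unfold al at h1
    rw [if_neg (by omega), if_neg (by omega), if_pos rfl, if_neg (by omega), if_neg (by omega),
      if_pos rfl] at h1
    exact h1
  · funext j
    by_cases h1 : j < hh n
    · by_cases h2 : ∃ m, hh m = j
      · obtain ⟨m, rfl⟩ := h2
        have hm : m < n := hh_strict.lt_iff_lt.1 h1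
        have h3 := congrFun h (hh n + 2 + m)
        unfold al at h3
        rw [if_neg (by omega), if_pos (by omega), if_neg (by omega), if_pos (by omega),
          Nat.add_sub_cancel_left] at h3
        exact h3
      · have h3 := congrFun h j
        unfold al at h3
        rw [if_pos h1, if_neg h2, if_pos h1, if_neg h2] at h3
        exact h3
    · by_cases h2 : j < hh (n + 1)
      · rw [hz j (not_lt.1 h1) h2, hz' j (not_lt.1 h1) h2]
      · rw [← al_tail b n o j (not_lt.1 h2), ← al_tail b' n o' j (not_lt.1 h2), h]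

theorem BD.meas_mv {X Z : Type} [MeasurableSpace X] [MeasurableSpace Z] {E : X → X → Prop}
    (D : BD E) (n : ℕ) {O : Z → ℕ → Bool} (hO : Measurable O) {f : Z → X} (hf : Measurable f) :
    Measurable fun z => D.mv n (O z) (f z) := by
  let c : Z → Fin (hh n) → Bool := fun z j => O z j
  have hc : Measurable c := measurable_pi_lambda _ fun j => (measurable_pi_apply _).comp hO
  have : (fun z => D.mv n (O z) (f z)) =
      fun z => D.mv n (fun j => if h : j < hh n then c z ⟨j, h⟩ else false) (f z) := by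
    funext z
    exact D.a4 _ _ _ _ fun j hj => by simp [hj, c]
  rw [this]
  exact meas_index
    (F := fun a z => D.mv n (fun j => if h : j < hh n then a ⟨j, h⟩ else false) (f z)) hc
    fun a => (D.mmv _ _).comp hf

theorem BD.compr {X : Type} [MeasurableSpace X] {E : X → X → Prop} (D : BD E)
    (hE : Equivalence E) : Compr E {x | InfZ (D.π x)} := by
  obtain ⟨c, hc, hcz⟩ := meas_least (fun n x => zone n (D.π x)) fun n => D.mπ (zone_meas n)
  have hz : ∀ x, InfZ (D.π x) → zone (c x) (D.π x) := by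
    intro x hx
    obtain ⟨n, -, hn⟩ := hx 0
    exact hcz x ⟨n, hn⟩
  have hπ : ∀ b n x, D.π (D.mv (n + 1) (al b n (D.π x)) x) = al b n (D.π x) := by
    intro b n x
    funext j
    rw [D.a1]
    split_ifs with h
    · rfl
    · exact (al_tail _ _ _ _ (not_lt.1 h)).symm
  refine compr_of_two hE (fun b x => D.mv (c x + 1) (al b (c x) (D.π x)) x) (fun b =>
    meas_index (F := fun n x => D.mv (n + 1) (al b n (D.π x)) x) hc fun n =>
      D.meas_mv _ ((al_meas b n).comp D.mπ) measurable_id) ?_ ?_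
  · intro b x hx
    refine ⟨?_, D.a5 _ _ _⟩
    show InfZ (D.π (D.mv (c x + 1) (al b (c x) (D.π x)) x))
    rw [hπ]
    exact infZ_congr (k := c x + 1) (fun j hj => (al_tail _ _ _ _ hj).symm) hx
  · intro b b' x hx x' hx' h
    have h1 := congrArg D.π h
    simp only [hπ] at h1
    obtain ⟨e1, e2, e3⟩ := al_inj (hz x hx) (hz x' hx') h1
    refine ⟨e1, ?_⟩
    have h2 := congrArg (D.mv (c x + 1) (D.π x)) h
    simp only [← e2] at h2
    rw [D.a2 _ _ _ _ _ le_rfl, D.a2 _ _ _ _ _ le_rfl, D.a3, e3, D.a3] at h2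
    exact h2

theorem exists_good_BD {X : Type} [MeasurableSpace X] [StandardBorelSpace X] [Nonempty X]
    {E : X → X → Prop} (hE : IsAperiodicCBER E) :
    ∃ D : BD E, ∀ x, ∃ k, ∀ n ≥ k, ¬ zone n (D.π x) := by
  classical
  obtain ⟨D⟩ := exists_BD hE
  obtain ⟨g, hg, hgi, hg0, hgE⟩ := exists_invol hE.equiv hE.borel hE.countable
  have hSm : MeasurableSet {x | InfZ (D.π x)} := D.mπ infZ_meas
  obtain ⟨β, hβ, hβS, hβi⟩ := D.compr hE.equiv
  have hW := compr_sat hE.equiv hg hgi hgE hSm β hβ (fun k x hx => (hβS k x hx).2) hβi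
  have hWm := sat_meas hg hSm
  obtain ⟨u, v, w, hu, hv, hw, h1, h2⟩ := hW.split hE.equiv hWm
  set W : Set X := {x | ∃ i, g i x ∈ {x | InfZ (D.π x)}} with hWdef
  have hWi : ∀ x y, E x y → x ∉ W → y ∉ W := fun x y h hx hy =>
    hx (sat_inv hE.equiv hgE (hE.equiv.symm h) hy)
  let fs : ℕ ≃ Finset ℕ := (Denumerable.eqv (Finset ℕ)).symm
  let ns : ℕ → (ℕ → Bool) → ℕ → ℕ := fun n o k => fs.symm
    ((Finset.range (hh n)).filter (fun j => o j = false) ∪ (fs k).filter (fun j => hh n ≤ j))
  have hns : ∀ n o k j, j ∈ fs (ns n o k) ↔ (j < hh n ∧ o j = false) ∨ (j ∈ fs k ∧ hh n ≤ j) := by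
    intro n o k j
    simp [ns]
  let π : X → ℕ → Bool := fun x j => if x ∈ W then decide (j ∉ fs (v x)) else D.π x j
  let mv : ℕ → (ℕ → Bool) → X → X := fun n o x =>
    if x ∈ W then w (ns n o (v x)) (u x) else D.mv n o x
  have p1 : ∀ x ∈ W, ∀ j, π x j = decide (j ∉ fs (v x)) := fun x hx j => if_pos hx
  have p2 : ∀ x, x ∉ W → π x = D.π x := fun x hx => funext fun j => if_neg hx
  have m1 : ∀ n o, ∀ x ∈ W, mv n o x = w (ns n o (v x)) (u x) := fun n o x hx => if_pos hx
  have m2 : ∀ n o x, x ∉ W → mv n o x = D.mv n o x := fun n o x hx => if_neg hx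
  refine ⟨{
    π := π
    mv := mv
    mπ := measurable_pi_lambda _ fun j => Measurable.ite hWm
      ((measurable_from_top (f := fun k : ℕ => decide (j ∉ fs k))).comp hv)
      ((measurable_pi_apply j).comp D.mπ)
    mmv := fun n o => Measurable.ite hWm
      (meas_index (F := fun k x => w (ns n o k) (u x)) hv fun k => (hw _).comp hu) (D.mmv n o)
    a1 := ?_
    a2 := ?_
    a3 := ?_
    a4 := ?_
    a5 := ?_ }, ?_⟩
  · intro n o x j
    by_cases hx : x ∈ W
    · obtain ⟨b1, b2, b3⟩ := h2 (ns n o (v x)) _ (h1 x hx).1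
      rw [m1 n o x hx, p1 _ b1, b3, p1 x hx]
      simp only [hns]
      split_ifs with h
      · cases o j <;> simp [h, not_le.2 h]
      · simp [h, not_lt.1 h]
    · rw [m2 n o x hx, p2 _ (hWi _ _ (D.a5 _ _ _) hx), p2 x hx, D.a1]
  · intro n n' o o' x hn
    by_cases hx : x ∈ W
    · obtain ⟨b1, b2, b3⟩ := h2 (ns n o (v x)) _ (h1 x hx).1
      rw [m1 n o x hx, m1 _ _ _ b1, b2, b3, m1 _ _ x hx]
      congr 1
      apply fs.injective
      ext j
      have := hh_mono hn
      simp only [hns]
      constructor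
      · rintro (h | ⟨h | h, h'⟩)
        · exact Or.inl h
        · omega
        · exact Or.inr ⟨h.1, h'⟩
      · rintro (h | h)
        · exact Or.inl h
        · exact Or.inr ⟨Or.inr ⟨h.1, by omega⟩, h.2⟩
    · rw [m2 n o x hx, m2 _ _ _ (hWi _ _ (D.a5 _ _ _) hx), m2 _ _ x hx, D.a2 _ _ _ _ _ hn]
  · intro n x
    by_cases hx : x ∈ W
    · rw [m1 _ _ x hx]
      have : ns n (π x) (v x) = v x := by
        apply fs.injective
        ext j
        simp only [hns, p1 x hx]
        by_cases h : j < hh n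
        · simp [h, not_le.2 h]
        · simp [h, not_lt.1 h]
      rw [this]
      exact (h1 x hx).2.2
    · rw [m2 _ _ x hx, p2 x hx, D.a3]
  · intro n o o' x h
    by_cases hx : x ∈ W
    · rw [m1 _ _ x hx, m1 _ _ x hx]
      congr 1
      apply fs.injective
      ext j
      simp only [hns]
      by_cases hj : j < hh n
      · rw [h j hj]
      · simp [hj]
    · rw [m2 _ _ x hx, m2 _ _ x hx, D.a4 _ _ _ _ h]
  · intro n o x
    by_cases hx : x ∈ W
    · obtain ⟨b1, b2, -⟩ := h2 (ns n o (v x)) _ (h1 x hx).1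
      rw [m1 n o x hx]
      have := (h1 _ b1).2.1
      rw [b2] at this
      exact hE.equiv.trans (h1 x hx).2.1 (hE.equiv.symm this)
    · rw [m2 n o x hx]
      exact D.a5 _ _ _
  · intro x
    show ∃ k, ∀ n ≥ k, ¬ zone n (π x)
    by_cases hx : x ∈ W
    · refine ⟨(fs (v x)).sup id + 1, fun n hn hz => ?_⟩
      have h3 := hz (hh n) le_rfl (hh_strict (Nat.lt_succ_self n))
      rw [p1 x hx] at h3
      have h4 : hh n ∈ fs (v x) := by simpa using h3
      have h5 : hh n ≤ (fs (v x)).sup id := Finset.le_sup (f := id) h4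
      have := le_hh n
      omega
    · rw [p2 x hx]
      by_contra h
      push Not at h
      exact hx ⟨0, by rw [hg0]; exact h⟩

end Pool.Agent.H244Z.CB
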