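import Mathlib
import Pool.Agent.H244Z.CB.Good

set_option autoImplicit false

namespace Pool.Agent.H244Z.CB

open Set Filter Topology TopologicalSpace MeasureTheory

theorem BD.mv_mv {X : Type} [MeasurableSpace X] {E : X → X → Prop} (D : BD E) {n n' : ℕ}
    (h : n ≤ n') (o o' : ℕ → Bool) (x : X) :
    D.mv n o' (D.mv n' o x) = D.mv n' (fun j => if j < hh n then o' j else o j) x := by
  rw [← D.a3 n' (D.mv n o' (D.mv n' o x)), D.a2 _ _ _ _ _ h, D.a2 _ _ _ _ _ le_rfl]
  refine D.a4 _ _ _ _ fun j hj => ?_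
  rw [D.a1, D.a1, if_pos hj]

theorem BD.mv_self {X : Type} [MeasurableSpace X] {E : X → X → Prop} (D : BD E) {n : ℕ}
    {o : ℕ → Bool} {x : X} (h : ∀ j < hh n, o j = D.π x j) : D.mv n o x = x := by
  rw [D.a4 _ _ _ _ h, D.a3]

/-- the data from which the minimal model is built -/
structure Ctx (X : Type) [MeasurableSpace X] [TopologicalSpace X] (E : X → X → Prop) where
  D : BD E
  ρ : X → ℕ → ℕ
  hρ : IsClosedEmbedding ρ
  cπ : Continuous D.π
  good : ∀ x, ∃ k, ∀ n ≥ k, ¬ zone n (D.π x)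
  code : ℕ → X → ℕ
  ccode : ∀ n, Continuous (code n)
  hcode : ∀ n x x', code n x = code n x' ↔ ∀ o, ∀ m < n, ρ (D.mv n o x) m = ρ (D.mv n o x') m
  x0 : X
  hx0 : ∀ n, ¬ zone n (D.π x0)

namespace Ctx

variable {X : Type} [MeasurableSpace X] [TopologicalSpace X] {E : X → X → Prop} (c : Ctx X E)

/-- points without vanishing block from level `k` on -/
def Gd (k : ℕ) : Set X := {x | ∀ n ≥ k, ¬ zone n (c.D.π x)}

theorem gd_mono {k l : ℕ} (h : k ≤ l) : c.Gd k ⊆ c.Gd l := fun _ hx n hn => hx n (h.trans hn)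

theorem gd_closed (k : ℕ) : IsClosed (c.Gd k) := by
  simp only [Gd, Set.setOf_forall]
  exact isClosed_iInter fun n => isClosed_iInter fun _ =>
    ((zone_clopen n).compl.isClosed.preimage c.cπ)

open Classical in
/-- a representative of a vertex -/
noncomputable def rep (n v : ℕ) : X :=
  if h : ∃ x ∈ c.Gd n, c.code n x = v then h.choose else c.x0

theorem rep_gd (n v : ℕ) : c.rep n v ∈ c.Gd n := by
  unfold rep
  split_ifs with h
  · exact h.choose_spec.1
  · exact fun m _ => c.hx0 m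

theorem rep_code {n v : ℕ} (h : ∃ x ∈ c.Gd n, c.code n x = v) : c.code n (c.rep n v) = v := by
  unfold rep
  rw [dif_pos h]
  exact h.choose_spec.2

/-- the point copied below a vanishing block -/
noncomputable def tg (j : ℕ) : X := c.rep j.unpair.1 j.unpair.2

theorem tg_gd (j : ℕ) : c.tg j ∈ c.Gd j := c.gd_mono (Nat.unpair_left_le j) (c.rep_gd _ _)

theorem code_mv {n n' : ℕ} (h : n ≤ n') (o : ℕ → Bool) (x : X) :
    c.code n' (c.D.mv n o x) = c.code n' x :=
  (c.hcode _ _ _).2 fun o' m _ => by rw [c.D.a2 _ _ _ _ _ h]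

theorem code_down {n n' : ℕ} (h : n ≤ n') (o : ℕ → Bool) {x x' : X}
    (hx : c.code n' x = c.code n' x') :
    c.code n (c.D.mv n' o x) = c.code n (c.D.mv n' o x') :=
  (c.hcode _ _ _).2 fun o' m hm => by
    rw [c.D.mv_mv h, c.D.mv_mv h]
    exact (c.hcode _ _ _).1 hx _ m (lt_of_lt_of_le hm h)

theorem rho_of_code {n : ℕ} {x x' : X} (hx : c.code n x = c.code n x')
    (h : ∀ j < hh n, c.D.π x j = c.D.π x' j) : ∀ m < n, c.ρ x m = c.ρ x' m := by
  intro m hm
  have := (c.hcode _ _ _).1 hx (c.D.π x) m hm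
  rwa [c.D.a3, c.D.mv_self h] at this

open Classical in
/-- the vertex below a given vertex along a given address -/
noncomputable def st (n v : ℕ) (o : ℕ → Bool) : ℕ :=
  if zone n o then c.code n (c.tg n) else c.code n (c.D.mv (n + 1) o (c.rep (n + 1) v))

theorem st_congr {n : ℕ} (v : ℕ) {o o' : ℕ → Bool}
    (h : ∀ j, hh n ≤ j → j < hh (n + 1) → o j = o' j) : c.st n v o = c.st n v o' := by
  unfold st
  by_cases hz : zone n o
  · rw [if_pos hz, if_pos ((zone_congr h).1 hz)]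
  · rw [if_neg hz, if_neg (fun h' => hz ((zone_congr h).2 h')),
      ← c.code_mv le_rfl o' (c.D.mv (n + 1) o _), c.D.mv_mv (Nat.le_succ n)]
    congr 1
    refine c.D.a4 _ _ _ _ fun j hj => ?_
    split_ifs with h1
    · rfl
    · exact h j (not_lt.1 h1) hj

theorem mv_gd {n : ℕ} {o : ℕ → Bool} (hz : ¬ zone n o) {x : X} (hx : x ∈ c.Gd (n + 1)) :
    c.D.mv (n + 1) o x ∈ c.Gd n := by
  intro m hm
  rcases eq_or_lt_of_le hm with rfl | h
  · rwa [zone_congr (o' := o) fun j _ hj => by rw [c.D.a1, if_pos hj]]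
  · rw [zone_congr (o' := c.D.π x) fun j hj _ => by
      rw [c.D.a1, if_neg (not_lt.2 ((hh_mono h).trans hj))]]
    exact hx m h

theorem st_V (n v : ℕ) (o : ℕ → Bool) : ∃ x ∈ c.Gd n, c.code n x = c.st n v o := by
  unfold st
  split_ifs with h
  · exact ⟨_, c.tg_gd n, rfl⟩
  · exact ⟨_, c.mv_gd h (c.rep_gd _ _), rfl⟩

theorem st_code {n : ℕ} {o : ℕ → Bool} (hz : ¬ zone n o) {x : X} (hx : x ∈ c.Gd (n + 1)) :
    c.st n (c.code (n + 1) x) o = c.code n (c.D.mv (n + 1) o x) := by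
  unfold st
  rw [if_neg hz]
  exact c.code_down (Nat.le_succ n) o (c.rep_code ⟨x, hx, rfl⟩)

theorem st_cont (n : ℕ) : Continuous fun p : ℕ × (ℕ → Bool) => c.st n p.1 p.2 := by
  have : (fun p : ℕ × (ℕ → Bool) => c.st n p.1 p.2) =
      (fun q : ℕ × (Fin (hh (n + 1)) → Bool) =>
        c.st n q.1 fun j => if h : j < hh (n + 1) then q.2 ⟨j, h⟩ else false) ∘
      fun p : ℕ × (ℕ → Bool) => (p.1, fun j : Fin (hh (n + 1)) => p.2 j) := by
    funext p
    exact c.st_congr _ fun j _ hj => by simp [hj]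
  rw [this]
  exact continuous_of_discreteTopology.comp (by fun_prop)

/-- the path space -/
def YS : Set ((ℕ → ℕ) × (ℕ → Bool)) := {y | ∀ n, y.1 n = c.st n (y.1 (n + 1)) y.2}

theorem ys_closed : IsClosed c.YS := by
  simp only [YS, Set.setOf_forall]
  exact isClosed_iInter fun n => isClosed_eq (by fun_prop)
    ((c.st_cont n).comp (f := fun y : (ℕ → ℕ) × (ℕ → Bool) => (y.1 (n + 1), y.2)) (by fun_prop))

/-- the vertices below level `k` -/
noncomputable def lev (o : ℕ → Bool) (k v : ℕ) : ℕ → ℕ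
  | 0 => v
  | d + 1 => c.st (k - (d + 1)) (lev o k v d) o

/-- completing a tail of a path -/
noncomputable def bld (v : ℕ → ℕ) (k : ℕ) (o : ℕ → Bool) (n : ℕ) : ℕ :=
  if k ≤ n then v n else c.lev o k (v k) (k - n)

theorem bld_ge (v : ℕ → ℕ) {k : ℕ} (o : ℕ → Bool) {n : ℕ} (h : k ≤ n) : c.bld v k o n = v n :=
  if_pos h

theorem bld_mem {v : ℕ → ℕ} {k : ℕ} {o : ℕ → Bool} (h : ∀ n ≥ k, v n = c.st n (v (n + 1)) o) :
    (c.bld v k o, o) ∈ c.YS := by
  intro n
  show c.bld v k o n = c.st n (c.bld v k o (n + 1)) o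
  by_cases h1 : k ≤ n
  · rw [c.bld_ge _ _ h1, c.bld_ge _ _ (h1.trans (Nat.le_succ n))]
    exact h n h1
  · have e1 : c.bld v k o (n + 1) = c.lev o k (v k) (k - (n + 1)) := by
      unfold bld
      split_ifs with h2
      · obtain rfl : k = n + 1 := by omega
        simp [lev]
      · rfl
    have e2 : k - n = k - (n + 1) + 1 := by omega
    have e3 : k - (k - (n + 1) + 1) = n := by omega
    rw [e1]
    unfold bld
    rw [if_neg h1, e2, lev, e3]

theorem bld_cont (k : ℕ) :
    Continuous fun p : (ℕ → ℕ) × (ℕ → Bool) => c.bld p.1 k p.2 := by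
  have hl : ∀ d, Continuous fun p : (ℕ → ℕ) × (ℕ → Bool) => c.lev p.2 k (p.1 k) d := by
    intro d
    induction d with
    | zero => show Continuous fun p : (ℕ → ℕ) × (ℕ → Bool) => p.1 k; fun_prop
    | succ d ih => exact (c.st_cont _).comp (ih.prodMk continuous_snd)
  refine continuous_pi fun n => ?_
  unfold bld
  split_ifs
  · fun_prop
  · exact hl _

theorem uniq {y y' : c.YS} {k : ℕ} (h1 : y.1.1 k = y'.1.1 k)
    (h2 : ∀ j < hh k, y.1.2 j = y'.1.2 j) : ∀ n ≤ k, y.1.1 n = y'.1.1 n := by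
  intro n hn
  induction hn using Nat.decreasingInduction with
  | self => exact h1
  | of_succ n hn ih =>
    rw [y.2 n, y'.2 n, ih]
    exact c.st_congr _ fun j _ hj => h2 j (lt_of_lt_of_le hj (hh_mono hn))

theorem yext {y y' : c.YS} (k : ℕ) (h1 : ∀ n ≥ k, y.1.1 n = y'.1.1 n) (h2 : y.1.2 = y'.1.2) :
    y = y' := by
  refine Subtype.ext (Prod.ext (funext fun n => ?_) h2)
  rcases le_total k n with h | h
  · exact h1 n h
  · exact c.uniq (h1 k le_rfl) (fun j _ => congrFun h2 j) n h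

/-- changing the address of a path below level `k` -/
noncomputable def mvY (k : ℕ) (o : ℕ → Bool) (y : c.YS) : c.YS :=
  ⟨(c.bld y.1.1 k fun j => if j < hh k then o j else y.1.2 j,
    fun j => if j < hh k then o j else y.1.2 j), c.bld_mem fun n hn => (y.2 n).trans
      (c.st_congr _ fun j hj _ => by rw [if_neg (not_lt.2 ((hh_mono hn).trans hj))])⟩

theorem mvY_fst (k : ℕ) (o : ℕ → Bool) (y : c.YS) {n : ℕ} (h : k ≤ n) :
    (c.mvY k o y).1.1 n = y.1.1 n := c.bld_ge _ _ h

theorem mvY_snd (k : ℕ) (o : ℕ → Bool) (y : c.YS) (j : ℕ) :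
    (c.mvY k o y).1.2 j = if j < hh k then o j else y.1.2 j := rfl

theorem mvY_cont (k : ℕ) : Continuous fun p : (ℕ → Bool) × c.YS => c.mvY k p.1 p.2 := by
  have h1 : Continuous fun p : (ℕ → Bool) × c.YS =>
      fun j => if j < hh k then p.1 j else p.2.1.2 j := by
    refine continuous_pi fun j => ?_
    split_ifs <;> fun_prop
  have h2 : Continuous fun p : (ℕ → Bool) × c.YS => p.2.1.1 := by fun_prop
  exact (((c.bld_cont k).comp (h2.prodMk h1)).prodMk h1).subtype_mk _

/-- tail equivalence -/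
def R (y y' : c.YS) : Prop :=
  ∃ k, (∀ n ≥ k, y.1.1 n = y'.1.1 n) ∧ ∀ j ≥ hh k, y.1.2 j = y'.1.2 j

theorem R_equiv : Equivalence c.R := by
  refine ⟨fun y => ⟨0, fun _ _ => rfl, fun _ _ => rfl⟩, ?_, ?_⟩
  · rintro y y' ⟨k, h1, h2⟩
    exact ⟨k, fun n hn => (h1 n hn).symm, fun n hn => (h2 n hn).symm⟩
  · rintro y y' y'' ⟨k, h1, h2⟩ ⟨l, h3, h4⟩
    exact ⟨max k l, fun n hn => (h1 n ((le_max_left _ _).trans hn)).trans
      (h3 n ((le_max_right _ _).trans hn)), fun n hn =>
      (h2 n ((hh_mono (le_max_left _ _)).trans hn)).trans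
      (h4 n ((hh_mono (le_max_right _ _)).trans hn))⟩

theorem R_mv {y y' : c.YS} (h : c.R y y') : ∃ k, c.mvY k y'.1.2 y = y' := by
  obtain ⟨k, h1, h2⟩ := h
  refine ⟨k, c.yext k (fun n hn => (c.mvY_fst _ _ _ hn).trans (h1 n hn)) (funext fun j => ?_)⟩
  rw [mvY_snd]
  split_ifs with h
  · rfl
  · exact h2 j (not_lt.1 h)

/-- the block structure of the path space -/
noncomputable def DY : BD c.R where
  π y := y.1.2
  mv := c.mvY
  mπ := measurable_snd.comp measurable_subtype_coe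
  mmv n o := ((c.mvY_cont n).comp (continuous_const.prodMk continuous_id)).measurable
  a1 n o y j := rfl
  a2 n n' o o' y h := c.yext n' (fun m hm => by
    rw [c.mvY_fst _ _ _ hm, c.mvY_fst _ _ _ (h.trans hm), c.mvY_fst _ _ _ hm]) (funext fun j => by
    simp only [mvY_snd]
    split_ifs with h1 h2
    · rfl
    · exact absurd (lt_of_lt_of_le h2 (hh_mono h)) h1
    · rfl)
  a3 n y := c.yext n (fun m hm => c.mvY_fst _ _ _ hm) (funext fun j => by simp [mvY_snd])
  a4 n o o' y h := c.yext n (fun m hm => by rw [c.mvY_fst _ _ _ hm, c.mvY_fst _ _ _ hm])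
    (funext fun j => by
      simp only [mvY_snd]
      split_ifs with h1
      · exact h j h1
      · rfl)
  a5 n o y := ⟨n, fun m hm => (c.mvY_fst _ _ _ hm).symm, fun j hj => by
    rw [mvY_snd, if_neg (not_lt.2 hj)]⟩

theorem R_dense (y : c.YS) : Dense {y' | c.R y y'} := by
  intro z
  rw [mem_closure_iff_seq_limit]
  have key : ∀ m, ∃ y', c.R y y' ∧ (∀ n ≤ m, y'.1.1 n = z.1.1 n) ∧
      ∀ j < hh m, y'.1.2 j = z.1.2 j := by
    intro m
    have hV : ∃ x ∈ c.Gd m, c.code m x = z.1.1 m := by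
      rw [z.2 m]
      exact c.st_V _ _ _
    set t := Nat.pair m (z.1.1 m) with ht
    have hmt : m ≤ t := Nat.left_le_pair _ _
    have htg : c.tg t = c.rep m (z.1.1 m) := by simp [tg, ht]
    have hg : c.tg t ∈ c.Gd m := htg ▸ c.rep_gd _ _
    let o : ℕ → Bool := fun j =>
      if j < hh m then z.1.2 j else if j < hh t then c.D.π (c.tg t) j else false
    let y' := c.mvY (t + 1) o y
    have hy' : ∀ j < hh (t + 1), y'.1.2 j = o j := fun j hj => if_pos hj
    have h2 : ∀ j < hh m, y'.1.2 j = z.1.2 j := by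
      intro j hj
      rw [hy' j (lt_of_lt_of_le hj (hh_mono (by omega)))]
      exact if_pos hj
    have h3 : ∀ n ≤ t, m ≤ n → y'.1.1 n = c.code n (c.tg t) := by
      intro n hn
      induction hn using Nat.decreasingInduction with
      | self =>
        intro _
        rw [y'.2 t, st, if_pos]
        intro j h1 h2
        have := hh_mono hmt
        rw [hy' j h2]
        simp only [o]
        rw [if_neg (by omega), if_neg (by omega)]
      | of_succ n hn ih =>
        intro hmn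
        have hb : ∀ j, hh n ≤ j → j < hh (n + 1) → y'.1.2 j = c.D.π (c.tg t) j := by
          intro j h1 h2
          have a1 := hh_mono hmn
          have a2 : hh (n + 1) ≤ hh t := hh_mono hn
          have a3 : hh t ≤ hh (t + 1) := hh_mono (Nat.le_succ t)
          rw [hy' j (by omega)]
          simp only [o]
          rw [if_neg (by omega), if_pos (by omega)]
        rw [y'.2 n, ih (by omega), c.st_congr _ hb,
          c.st_code (hg n hmn) (c.gd_mono (by omega) hg), c.D.a3]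
    refine ⟨y', c.DY.a5 _ _ _, c.uniq ?_ h2, h2⟩
    rw [h3 m hmt le_rfl, htg, c.rep_code hV]
  choose Y hY h1 h2 using key
  refine ⟨Y, hY, tendsto_subtype_rng.2 (Tendsto.prodMk_nhds ?_ ?_)⟩
  · refine tendsto_pi_nhds.2 fun n => tendsto_const_nhds.congr' ?_
    filter_upwards [eventually_ge_atTop n] with m hm using (h1 m n hm).symm
  · refine tendsto_pi_nhds.2 fun n => tendsto_const_nhds.congr' ?_
    filter_upwards [eventually_gt_atTop n] with m hm using
      (h2 m n (lt_of_lt_of_le hm (le_hh m))).symm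

theorem code_st {k : ℕ} {x : X} (hx : x ∈ c.Gd k) :
    ∀ n ≥ k, c.code n x = c.st n (c.code (n + 1) x) (c.D.π x) := by
  intro n hn
  rw [c.st_code (hx n hn) (c.gd_mono (hn.trans (Nat.le_succ n)) hx), c.D.a3]

open Classical in
/-- the embedding of `X` into the path space -/
noncomputable def φ (x : X) : c.YS :=
  ⟨(c.bld (fun n => c.code n x) (Nat.find (c.good x)) (c.D.π x), c.D.π x),
    c.bld_mem (c.code_st (Nat.find_spec (c.good x)))⟩

theorem φ_snd (x : X) : (c.φ x).1.2 = c.D.π x := rfl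

theorem φ_fst {k : ℕ} {x : X} (hx : x ∈ c.Gd k) {n : ℕ} (hn : k ≤ n) :
    (c.φ x).1.1 n = c.code n x := by
  classical
  exact c.bld_ge (fun n => c.code n x) _ ((Nat.find_min' (c.good x) hx).trans hn)

theorem φ_val {k : ℕ} {x : X} (hx : x ∈ c.Gd k) :
    (c.φ x).1 = (c.bld (fun n => c.code n x) k (c.D.π x), c.D.π x) :=
  congrArg Subtype.val (c.yext (y' := ⟨_, c.bld_mem (c.code_st hx)⟩) k
    (fun _ hn => (c.φ_fst hx hn).trans (c.bld_ge (fun n => c.code n x) _ hn).symm) rfl)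

theorem φk_cont (k : ℕ) :
    Continuous fun x => (c.bld (fun n => c.code n x) k (c.D.π x), c.D.π x) :=
  ((c.bld_cont k).comp ((continuous_pi c.ccode).prodMk c.cπ)).prodMk c.cπ

theorem φ_cont (k : ℕ) : Continuous fun x : c.Gd k => c.φ x := by
  refine continuous_induced_rng.2 ?_
  have : Subtype.val ∘ (fun x : c.Gd k => c.φ x) =
      (fun x => (c.bld (fun n => c.code n x) k (c.D.π x), c.D.π x)) ∘ Subtype.val :=
    funext fun x => c.φ_val x.2
  rw [this]
  exact (c.φk_cont k).comp continuous_subtype_val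

theorem φ_meas [OpensMeasurableSpace X] : Measurable c.φ := by
  classical
  refine Measurable.subtype_mk (meas_index (c := fun x => Nat.find (c.good x))
    (F := fun k x => (c.bld (fun n => c.code n x) k (c.D.π x), c.D.π x))
    (measurable_find c.good fun k => (c.gd_closed k).measurableSet)
    fun k => (c.φk_cont k).measurable)

theorem φ_inj : Function.Injective c.φ := by
  intro x x' h
  obtain ⟨k, hk⟩ := c.good x
  obtain ⟨k', hk'⟩ := c.good x'
  apply c.hρ.injective
  funext m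
  refine c.rho_of_code (n := max (max k k') (m + 1)) ?_ (fun j _ => ?_) m (by omega)
  · rw [← c.φ_fst hk (by omega), ← c.φ_fst hk' (by omega), h]
  · rw [← φ_snd, ← φ_snd, h]

theorem φ_mv (k : ℕ) (o : ℕ → Bool) (x : X) : c.φ (c.D.mv k o x) = c.mvY k o (c.φ x) := by
  obtain ⟨l, hl⟩ := c.good x
  have h1 : c.D.mv k o x ∈ c.Gd (max k l) := by
    intro n hn
    rw [zone_congr (o' := c.D.π x) fun j hj _ => by
      rw [c.D.a1, if_neg (not_lt.2 ((hh_mono ((le_max_left _ _).trans hn)).trans hj))]]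
    exact hl n ((le_max_right _ _).trans hn)
  refine c.yext (max k l) (fun n hn => ?_) (funext fun j => ?_)
  · rw [c.φ_fst h1 hn, c.mvY_fst _ _ _ ((le_max_left _ _).trans hn),
      c.φ_fst hl ((le_max_right _ _).trans hn), c.code_mv ((le_max_left _ _).trans hn)]
  · rw [φ_snd, mvY_snd, c.D.a1, φ_snd]

theorem φ_surj {k : ℕ} {y : c.YS} (hy : ∀ n ≥ k, ¬ zone n y.1.2) : ∃ x ∈ c.Gd k, c.φ x = y := by
  let s : ℕ → X := fun n => c.D.mv n y.1.2 (c.rep n (y.1.1 n))
  have hsπ : ∀ n, ∀ j < hh n, c.D.π (s n) j = y.1.2 j := fun n j hj => by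
    simp only [s]; rw [c.D.a1, if_pos hj]
  have h1 : ∀ n, c.code n (s n) = y.1.1 n := by
    intro n
    simp only [s]
    rw [c.code_mv le_rfl, c.rep_code]
    rw [y.2 n]
    exact c.st_V _ _ _
  have h2 : ∀ n ≥ k, c.code n (s (n + 1)) = c.code n (s n) := by
    intro n hn
    rw [h1, y.2 n, st, if_neg (hy n hn)]
  have h3 : ∀ n ≥ k, ∀ n' ≥ n, c.code n (s n') = y.1.1 n := by
    intro n hn n' hn'
    induction n', hn' using Nat.le_induction with
    | base => exact h1 n
    | succ n' hn' ih =>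
      have := c.code_down hn' y.1.2 (h2 n' (hn.trans hn'))
      rw [c.D.mv_self fun j hj => (hsπ _ j (lt_of_lt_of_le hj (hh_mono (Nat.le_succ _)))).symm,
        c.D.mv_self fun j hj => (hsπ _ j hj).symm] at this
      rw [this, ih]
  have h4 : Tendsto (fun n => c.ρ (s n)) atTop (𝓝 fun m => c.ρ (s (max k (m + 1))) m) := by
    refine tendsto_pi_nhds.2 fun m => tendsto_const_nhds.congr' ?_
    filter_upwards [eventually_ge_atTop (max k (m + 1))] with n hn
    refine c.rho_of_code (n := max k (m + 1)) ?_ (fun j hj => ?_) m (by omega)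
    · rw [h1, h3 _ (le_max_left _ _) n hn]
    · rw [hsπ _ j hj, hsπ _ j (lt_of_lt_of_le hj (hh_mono hn))]
  obtain ⟨x, hx⟩ := c.hρ.isClosed_range.mem_of_tendsto h4
    (Eventually.of_forall fun n => ⟨s n, rfl⟩)
  rw [← hx] at h4
  have h5 : Tendsto s atTop (𝓝 x) := c.hρ.isInducing.tendsto_nhds_iff.2 h4
  have h6 : c.D.π x = y.1.2 := by
    refine tendsto_nhds_unique ((c.cπ.tendsto x).comp h5) ?_
    refine tendsto_pi_nhds.2 fun j => tendsto_const_nhds.congr' ?_
    filter_upwards [eventually_gt_atTop j] with n hn using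
      (hsπ n j (lt_of_lt_of_le hn (le_hh n))).symm
  have h7 : x ∈ c.Gd k := fun n hn => h6 ▸ hy n hn
  refine ⟨x, h7, c.yext k (fun n hn => ?_) h6⟩
  rw [c.φ_fst h7 hn]
  refine tendsto_nhds_unique (((c.ccode n).tendsto x).comp h5) (tendsto_const_nhds.congr' ?_)
  filter_upwards [eventually_ge_atTop n] with n' hn' using (h3 n hn n' hn').symm

theorem φ_proper (k : ℕ) : IsProperMap fun x : c.Gd k => c.φ x := by
  refine isProperMap_iff_ultrafilter.2 ⟨c.φ_cont k, fun 𝒰 y hy => ?_⟩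
  have h1 : Tendsto (fun x : c.Gd k => (c.φ x).1.1) 𝒰 (𝓝 y.1.1) :=
    ((continuous_fst.comp continuous_subtype_val).tendsto y).comp hy
  have h2 : Tendsto (fun x : c.Gd k => c.D.π x) 𝒰 (𝓝 y.1.2) :=
    ((continuous_snd.comp continuous_subtype_val).tendsto y).comp hy
  obtain ⟨x, hx, rfl⟩ := c.φ_surj (k := k) (y := y) fun n hn =>
    (zone_clopen n).compl.isClosed.mem_of_tendsto h2 (Eventually.of_forall fun x => x.2 n hn)
  refine ⟨⟨x, hx⟩, rfl, ?_⟩
  refine tendsto_subtype_rng.2 (c.hρ.isInducing.tendsto_nhds_iff.2 (tendsto_pi_nhds.2 fun m =>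
    tendsto_const_nhds.congr' ?_))
  have e1 := tendsto_pi_nhds.1 h1 (max k (m + 1))
  rw [nhds_discrete ℕ, tendsto_pure] at e1
  have e2 : ∀ᶠ z : c.Gd k in 𝒰, ∀ j ∈ Finset.range (hh (max k (m + 1))),
      c.D.π z j = c.D.π x j := by
    refine (eventually_all_finset _).2 fun j _ => ?_
    have := tendsto_pi_nhds.1 h2 j
    rwa [nhds_discrete Bool, tendsto_pure] at this
  filter_upwards [e1, e2] with z hz1 hz2
  refine c.rho_of_code (n := max k (m + 1)) ?_ (fun j hj => ?_) m (by omega)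
  · rw [← c.φ_fst hx (le_max_left _ _), ← hz1, c.φ_fst z.2 (le_max_left _ _)]
  · exact (hz2 j (Finset.mem_range.2 hj)).symm

end Ctx

end Pool.Agent.H244Z.CB
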