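import Mathlib
import Pool.Agent.H244Z.CB.Yc
import Pool.Agent.H244Z.CB.Cp

set_option autoImplicit false

namespace Pool.Agent.H244Z.CB

open Set Filter Topology TopologicalSpace MeasureTheory

theorem exists_ctx {X : Type} [MeasurableSpace X] [StandardBorelSpace X] [Nonempty X]
    {E : X → X → Prop} (hE : IsAperiodicCBER E) (g : ℕ → X → X) (hg : ∀ i, Measurable (g i)) :
    ∃ (_ : TopologicalSpace X) (_ : PolishSpace X) (_ : BorelSpace X) (_ : Ctx X E),
      ∀ i, Continuous (g i) := by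
  classical
  obtain ⟨D, hD⟩ := exists_good_BD hE
  let ex : ∀ n, (Fin (hh n) → Bool) → ℕ → Bool := fun n a j =>
    if h : j < hh n then a ⟨j, h⟩ else false
  obtain ⟨t, hp, hb, ρ, hρ, hγ, hl⟩ := exists_rho (ι := ℕ ⊕ (Σ n, Fin (hh n) → Bool)) (κ := ℕ)
    (Sum.elim g fun p => D.mv p.1 (ex p.1 p.2)) (by
      rintro (i | p)
      · exact hg i
      · exact D.mmv _ _) (fun j x => (D.π x j).toNat) fun j =>
      (measurable_from_top (f := Bool.toNat)).comp ((measurable_pi_apply j).comp D.mπ)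
  have hcπ : Continuous D.π := by
    refine continuous_pi fun j => ?_
    have : (fun x => D.π x j) = (fun n : ℕ => decide (n = 1)) ∘ fun x => (D.π x j).toNat := by
      funext x
      cases h : D.π x j <;> simp [h]
    rw [this]
    exact continuous_of_discreteTopology.comp (hl j)
  let pt : ∀ n, X → (Fin (hh n) → Bool) → Fin n → ℕ := fun n x a m => ρ (D.mv n (ex n a) x) m
  have hpt : ∀ n, Continuous (pt n) := fun n => continuous_pi fun a => continuous_pi fun m =>
    (continuous_apply (m : ℕ)).comp (hρ.continuous.comp (hγ (Sum.inr ⟨n, a⟩)))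
  choose en hen using fun n => exists_injective_nat ((Fin (hh n) → Bool) → Fin n → ℕ)
  obtain ⟨x⟩ := (inferInstance : Nonempty X)
  obtain ⟨k, hk⟩ := hD x
  refine ⟨t, hp, hb, {
    D := D
    ρ := ρ
    hρ := hρ
    cπ := hcπ
    good := hD
    code := fun n x => en n (pt n x)
    ccode := fun n => continuous_of_discreteTopology.comp (hpt n)
    hcode := ?_
    x0 := D.mv k (fun _ => true) x
    hx0 := ?_ }, fun i => hγ (Sum.inl i)⟩
  · intro n x x'
    rw [(hen n).eq_iff]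
    constructor
    · intro h o m hm
      have := congrFun (congrFun h fun j => o j) ⟨m, hm⟩
      simp only [pt] at this
      rwa [D.a4 n _ o x fun j hj => by simp [ex, hj],
        D.a4 n _ o x' fun j hj => by simp [ex, hj]] at this
    · intro h
      funext a m
      exact h _ m m.2
  · intro n hz
    rcases lt_or_ge n k with h | h
    · have := hz (hh n) le_rfl (hh_strict (Nat.lt_succ_self n))
      rw [D.a1, if_pos (hh_strict h)] at this
      simp at this
    · refine hk n h ((zone_congr fun j hj _ => ?_).1 hz)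
      rw [D.a1, if_neg (not_lt.2 ((hh_mono h).trans hj))]

theorem proper_of_invol {C : Type} [TopologicalSpace C] {f : C → C} (hf : Continuous f)
    (h : ∀ x, f (f x) = x) : IsProperMap f :=
  (⟨⟨f, f, h, h⟩, hf, hf⟩ : C ≃ₜ C).isProperMap

theorem proper_range {C Y : Type} [TopologicalSpace C] [TopologicalSpace Y] {p q : C → Y}
    (hp : IsProperMap p) (hq : IsProperMap q) :
    (IsProperMap fun z : range (fun x => (p x, q x)) => (z : Y × Y).1) ∧
      IsProperMap fun z : range (fun x => (p x, q x)) => (z : Y × Y).2 := by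
  have hc : Continuous (rangeFactorization fun x => (p x, q x)) :=
    (hp.continuous.prodMk hq.continuous).subtype_mk _
  exact ⟨isProperMap_of_comp_of_surj hc (by fun_prop) hp rangeFactorization_surjective,
    isProperMap_of_comp_of_surj hc (by fun_prop) hq rangeFactorization_surjective⟩

/-- coding of pairs of sequences -/
def e0 (y : (ℕ → ℕ) × (ℕ → Bool)) (m : ℕ) : ℕ := Nat.pair (y.1 m) (y.2 m).toNat

theorem e0_closed : IsClosedEmbedding e0 := by
  refine Function.LeftInverse.isClosedEmbedding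
    (f := fun w => (fun m => (w m).unpair.1, fun m => decide ((w m).unpair.2 = 1))) ?_ ?_ ?_
  · intro y
    refine Prod.ext (funext fun m => by simp [e0]) (funext fun m => ?_)
    cases h : y.2 m <;> simp [e0, h]
  · exact (continuous_pi fun m => (continuous_of_discreteTopology
      (f := fun n : ℕ => n.unpair.1)).comp (continuous_apply m)).prodMk
      (continuous_pi fun m => (continuous_of_discreteTopology
      (f := fun n : ℕ => decide (n.unpair.2 = 1))).comp (continuous_apply m))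
  · exact continuous_pi fun m => (continuous_of_discreteTopology
      (f := fun p : ℕ × Bool => Nat.pair p.1 p.2.toNat)).comp
      (f := fun y : (ℕ → ℕ) × (ℕ → Bool) => (y.1 m, y.2 m)) (by fun_prop)

theorem e0_eq {y y' : (ℕ → ℕ) × (ℕ → Bool)} {m : ℕ} :
    e0 y m = e0 y' m ↔ y.1 m = y'.1 m ∧ y.2 m = y'.2 m := by
  simp only [e0, Nat.pair_eq_pair]
  cases y.2 m <;> cases y'.2 m <;> simp

/-- the graph of a sequence of natural numbers -/
def gr (w : ℕ → ℕ) (t : ℕ) : Bool := decide (w t.unpair.1 = t.unpair.2)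

theorem gr_meas : Measurable gr := measurable_pi_lambda _ fun t =>
  (measurable_from_top (f := fun n : ℕ => decide (n = t.unpair.2))).comp (measurable_pi_apply _)

theorem gr_of {w w' : ℕ → ℕ} {n : ℕ} (h : ∀ t ≥ n, gr w t = gr w' t) : ∀ m ≥ n, w m = w' m := by
  intro m hm
  have := h (Nat.pair m (w m)) (le_trans hm (Nat.left_le_pair _ _))
  simp [gr] at this
  exact this.symm

theorem gr_to {w w' : ℕ → ℕ} {n : ℕ} (h : ∀ m ≥ n, w m = w' m) :
    ∃ N, ∀ t ≥ N, gr w t = gr w' t := by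
  refine ⟨(Finset.range n).sup (fun m => max (Nat.pair m (w m)) (Nat.pair m (w' m))) + 1,
    fun t ht => ?_⟩
  rcases lt_or_ge t.unpair.1 n with h1 | h1
  · have h2 : max (Nat.pair t.unpair.1 (w t.unpair.1)) (Nat.pair t.unpair.1 (w' t.unpair.1)) ≤
        (Finset.range n).sup (fun m => max (Nat.pair m (w m)) (Nat.pair m (w' m))) :=
      Finset.le_sup (f := fun m => max (Nat.pair m (w m)) (Nat.pair m (w' m)))
        (Finset.mem_range.2 h1)
    have h3 : w t.unpair.1 ≠ t.unpair.2 := by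
      intro e
      rw [e, Nat.pair_unpair] at h2
      omega
    have h4 : w' t.unpair.1 ≠ t.unpair.2 := by
      intro e
      rw [e, Nat.pair_unpair] at h2
      omega
    simp [gr, h3, h4]
  · simp [gr, h _ h1]

theorem minimal_ksigma (X : Type) [MeasurableSpace X] [StandardBorelSpace X] [Nonempty X]
    (E : X → X → Prop) (hE : IsAperiodicCBER E) (hns : ¬ IsSmooth E) :
    ∃ (Y : Type) (_ : TopologicalSpace Y) (_ : PolishSpace Y) (_ : CompactSpace Y)
      (_ : MeasurableSpace Y) (_ : BorelSpace Y) (F : Y → Y → Prop),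
      Equivalence F ∧ BorelIso E F ∧ IsMinimalRel F ∧
      ∃ C : ℕ → Set (Y × Y), (∀ n, IsCompact (C n)) ∧ {p : Y × Y | F p.1 p.2} = ⋃ n, C n := by
  classical
  obtain ⟨g, hg, hgi, hg0, hgE⟩ := exists_invol hE.equiv hE.borel hE.countable
  obtain ⟨θ, hθ, hθi, hθE⟩ := glimm_effros hE.equiv g hg hgi hg0 hgE hns
  obtain ⟨t, hp, hb, c, hgc⟩ := exists_ctx hE g hg
  haveI : PolishSpace ((ℕ → ℕ) × (ℕ → Bool)) :=
    instPolishSpaceOfSeparableSpaceOfIsCompletelyMetrizableSpace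
  haveI : PolishSpace c.YS := c.ys_closed.polishSpace
  haveI : Nonempty c.YS := ⟨c.φ c.x0⟩
  let e : c.YS → ℕ → ℕ := fun y => e0 y
  have he : IsClosedEmbedding e := e0_closed.comp c.ys_closed.isClosedEmbedding_subtypeVal
  have hRe : ∀ y y', c.R y y' ↔ ∃ N, ∀ m ≥ N, e y m = e y' m := by
    intro y y'
    constructor
    · rintro ⟨k, h1, h2⟩
      exact ⟨hh k, fun m hm => e0_eq.2 ⟨h1 m ((le_hh k).trans hm), h2 m hm⟩⟩
    · rintro ⟨N, h⟩
      exact ⟨N, fun m hm => (e0_eq.1 (h m hm)).1,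
        fun m hm => (e0_eq.1 (h m ((le_hh N).trans hm))).2⟩
  let A : Set c.YS := {y | InfZ y.1.2}
  have hA : MeasurableSet A := c.DY.mπ infZ_meas
  let G : c.YS × ℕ → c.YS × ℕ → Prop := fun p p' => c.R p.1 p'.1 ∧ p.2 = p'.2
  have hG : Compr G (A ×ˢ univ) := by
    obtain ⟨β, h1, h2, h3⟩ := c.DY.compr c.R_equiv
    refine ⟨fun k p => (β k p.1, p.2), fun k => ((h1 k).comp measurable_fst).prodMk measurable_snd,
      fun k p hp => ⟨⟨(h2 k _ hp.1).1, trivial⟩, (h2 k _ hp.1).2, rfl⟩, fun k k' p hp p' hp' h => ?_⟩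
    obtain ⟨a, b⟩ := Prod.ext_iff.1 h
    obtain ⟨a1, a2⟩ := h3 _ _ _ hp.1 _ hp'.1 a
    exact ⟨a1, Prod.ext a2 b⟩
  let en : c.YS × ℕ → ℕ → ℕ := fun p m => Nat.pair p.2 (e p.1 m)
  have hen : Measurable en := measurable_pi_lambda _ fun m =>
    meas_index (c := Prod.snd) (F := fun k (p : c.YS × ℕ) => Nat.pair k (e p.1 m)) measurable_snd
      fun k => (measurable_from_top (f := fun n : ℕ => Nat.pair k n)).comp
        ((measurable_pi_apply m).comp (he.continuous.measurable.comp measurable_fst))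
  obtain ⟨T, J, J', hT, hTi, hJ, hJ', m1, m2, e1, e2, hJE⟩ := inv_embed hE.equiv hg hgi hgE
    (hA.prod MeasurableSet.univ) hG (j := fun p => θ (gr (en p))) (hθ.comp (gr_meas.comp hen))
    (by
      intro p p' h
      have h1 := gr_of (n := 0) fun t _ => congrFun (hθi h) t
      refine Prod.ext (he.injective (funext fun m => ?_)) ?_
      · exact (Nat.pair_eq_pair.1 (h1 m (Nat.zero_le _))).2
      · exact (Nat.pair_eq_pair.1 (h1 0 le_rfl)).1)
    (by
      intro p p'
      rw [hθE]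
      constructor
      · rintro ⟨n, hn⟩
        have h1 := gr_of hn
        exact ⟨(hRe _ _).2 ⟨n, fun m hm => (Nat.pair_eq_pair.1 (h1 m hm)).2⟩,
          (Nat.pair_eq_pair.1 (h1 n le_rfl)).1⟩
      · rintro ⟨h1, h2⟩
        obtain ⟨N, hN⟩ := (hRe _ _).1 h1
        exact gr_to (n := N) fun m hm => by simp only [en, h2, hN m hm])
  let F : c.YS → c.YS → Prop := fun y y' =>
    (∃ x x', E x x' ∧ c.φ x = y ∧ c.φ x' = y') ∨ c.R y y'
  have f1 : ∀ x, c.φ x ∉ A := by
    intro x hx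
    obtain ⟨k, hk⟩ := c.good x
    obtain ⟨n, hn, hz⟩ := hx k
    exact hk n hn hz
  have f2 : ∀ y, y ∉ A → ∃ x, c.φ x = y := by
    intro y hy
    have : ∃ k, ∀ n ≥ k, ¬ zone n y.1.2 := by
      by_contra h
      push Not at h
      exact hy h
    obtain ⟨k, hk⟩ := this
    obtain ⟨x, -, hx⟩ := c.φ_surj hk
    exact ⟨x, hx⟩
  have f3 : ∀ x x', F (c.φ x) (c.φ x') ↔ E x x' := by
    intro x x'
    constructor
    · rintro (⟨a, b, h, ha, hb⟩ | h)
      · rwa [← c.φ_inj ha, ← c.φ_inj hb]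
      · obtain ⟨k, hk⟩ := c.R_mv h
        rw [← c.φ_mv] at hk
        rw [← c.φ_inj hk]
        exact c.D.a5 _ _ _
    · exact fun h => Or.inl ⟨x, x', h, rfl, rfl⟩
  have fA : ∀ y y', c.R y y' → y ∈ A → y' ∈ A := by
    rintro y y' ⟨k, -, h⟩ hy
    exact infZ_congr h hy
  have f4 : ∀ y ∈ A, ∀ y', F y y' ↔ c.R y y' := by
    intro y hy y'
    refine ⟨?_, Or.inr⟩
    rintro (⟨a, b, -, rfl, -⟩ | h)
    · exact absurd hy (f1 a)
    · exact h
  have f5 : ∀ y ∈ A, ∀ x, ¬ F y (c.φ x) := fun y hy x h => f1 x (fA _ _ ((f4 y hy _).1 h) hy)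
  have f6 : ∀ y ∈ A, ∀ x, ¬ F (c.φ x) y := by
    rintro y hy x (⟨a, b, -, -, rfl⟩ | h)
    · exact f1 b hy
    · exact f1 x (fA _ _ (c.R_equiv.symm h) hy)
  let H : X → c.YS := fun x => if x ∈ T then
    (if (J' x).2 = 0 then (J' x).1 else c.φ (J ((J' x).1, (J' x).2 - 1))) else c.φ x
  have hH : Measurable H := Measurable.ite hT
    (Measurable.ite (measurableSet_eq_fun (measurable_snd.comp hJ') measurable_const)
      (measurable_fst.comp hJ')
      (c.φ_meas.comp (hJ.comp ((measurable_fst.comp hJ').prodMk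
        ((measurable_from_top (f := fun n : ℕ => n - 1)).comp (measurable_snd.comp hJ'))))))
    c.φ_meas
  have hS : ∀ y ∈ A, ∀ n : ℕ, (y, n) ∈ A ×ˢ (univ : Set ℕ) := fun y hy n => ⟨hy, trivial⟩
  have H1 : ∀ x, x ∉ T → H x = c.φ x := fun x hx => if_neg hx
  have H2 : ∀ y ∈ A, H (J (y, 0)) = y := by
    intro y hy
    simp only [H, if_pos (m1 (hS y hy 0)), e1 _ (hS y hy 0), if_true]
  have H3 : ∀ y ∈ A, ∀ n, H (J (y, n + 1)) = c.φ (J (y, n)) := by
    intro y hy n
    simp only [H, if_pos (m1 (hS y hy (n + 1))), e1 _ (hS y hy (n + 1))]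
    simp
  have hcase : ∀ x, x ∉ T ∨ (∃ y ∈ A, x = J (y, 0)) ∨ ∃ y ∈ A, ∃ n, x = J (y, n + 1) := by
    intro x
    by_cases hx : x ∈ T
    · right
      have h1 := (m2 hx).1
      have h2 := e2 x hx
      rcases h : J' x with ⟨y, _ | n⟩
      · rw [h] at h1 h2
        exact Or.inl ⟨y, h1, h2.symm⟩
      · rw [h] at h1 h2
        exact Or.inr ⟨y, h1, n, h2.symm⟩
    · exact Or.inl hx
  have hJT : ∀ y ∈ A, ∀ n, J (y, n) ∈ T := fun y hy n => m1 (hS y hy n)
  have hJ2 : ∀ y ∈ A, ∀ y' ∈ A, ∀ n n', E (J (y, n)) (J (y', n')) ↔ c.R y y' ∧ n = n' :=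
    fun y hy y' hy' n n' => hJE _ (hS y hy n) _ (hS y' hy' n')
  have hHF : ∀ x x', E x x' ↔ F (H x) (H x') := by
    intro x x'
    rcases hcase x with hx | ⟨y, hy, rfl⟩ | ⟨y, hy, n, rfl⟩ <;>
      rcases hcase x' with hx' | ⟨y', hy', rfl⟩ | ⟨y', hy', n', rfl⟩
    · rw [H1 _ hx, H1 _ hx', f3]
    · rw [H1 _ hx, H2 _ hy']
      exact iff_of_false (fun h => hx (hTi _ _ (hE.equiv.symm h) (hJT _ hy' _))) (f6 _ hy' _)
    · rw [H1 _ hx, H3 _ hy', f3]
      exact iff_of_false (fun h => hx (hTi _ _ (hE.equiv.symm h) (hJT _ hy' _)))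
        (fun h => hx (hTi _ _ (hE.equiv.symm h) (hJT _ hy' _)))
    · rw [H1 _ hx', H2 _ hy]
      exact iff_of_false (fun h => hx' (hTi _ _ h (hJT _ hy _))) (f5 _ hy _)
    · rw [H2 _ hy, H2 _ hy', hJ2 _ hy _ hy', f4 _ hy]
      simp
    · rw [H2 _ hy, H3 _ hy', hJ2 _ hy _ hy']
      exact iff_of_false (by simp) (f5 _ hy _)
    · rw [H1 _ hx', H3 _ hy, f3]
      exact iff_of_false (fun h => hx' (hTi _ _ h (hJT _ hy _)))
        (fun h => hx' (hTi _ _ h (hJT _ hy _)))
    · rw [H3 _ hy, H2 _ hy', hJ2 _ hy _ hy']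
      exact iff_of_false (by simp) (f6 _ hy' _)
    · rw [H3 _ hy, H3 _ hy', f3, hJ2 _ hy _ hy', hJ2 _ hy _ hy']
      simp
  have hJi : ∀ y ∈ A, ∀ y' ∈ A, ∀ n n', J (y, n) = J (y', n') → y = y' ∧ n = n' := by
    intro y hy y' hy' n n' h
    have := congrArg J' h
    rw [e1 _ (hS y hy n), e1 _ (hS y' hy' n')] at this
    exact Prod.ext_iff.1 this
  have hHb : Function.Bijective H := by
    constructor
    · intro x x' h
      rcases hcase x with hx | ⟨y, hy, rfl⟩ | ⟨y, hy, n, rfl⟩ <;>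
        rcases hcase x' with hx' | ⟨y', hy', rfl⟩ | ⟨y', hy', n', rfl⟩
      · rw [H1 _ hx, H1 _ hx'] at h
        exact c.φ_inj h
      · rw [H1 _ hx, H2 _ hy'] at h
        exact absurd (h ▸ hy') (f1 _)
      · rw [H1 _ hx, H3 _ hy'] at h
        exact absurd (c.φ_inj h ▸ hJT _ hy' _) hx
      · rw [H1 _ hx', H2 _ hy] at h
        exact absurd (h ▸ hy) (f1 _)
      · rw [H2 _ hy, H2 _ hy'] at h
        rw [h]
      · rw [H2 _ hy, H3 _ hy'] at h
        exact absurd (h ▸ hy) (f1 _)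
      · rw [H1 _ hx', H3 _ hy] at h
        exact absurd (c.φ_inj h ▸ hJT _ hy _) hx'
      · rw [H3 _ hy, H2 _ hy'] at h
        exact absurd (h ▸ hy') (f1 _)
      · rw [H3 _ hy, H3 _ hy'] at h
        obtain ⟨rfl, rfl⟩ := hJi _ hy _ hy' _ _ (c.φ_inj h)
        rfl
    · intro y
      by_cases hy : y ∈ A
      · exact ⟨_, H2 y hy⟩
      · obtain ⟨x, rfl⟩ := f2 y hy
        rcases hcase x with hx | ⟨z, hz, rfl⟩ | ⟨z, hz, n, rfl⟩
        · exact ⟨x, H1 x hx⟩
        · exact ⟨_, H3 z hz 0⟩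
        · exact ⟨_, H3 z hz (n + 1)⟩
  have hFe : Equivalence F := by
    refine ⟨fun y => ?_, fun {y y'} h => ?_, fun {y y' y''} h h' => ?_⟩
    · obtain ⟨x, rfl⟩ := hHb.2 y
      exact (hHF _ _).1 (hE.equiv.refl x)
    · obtain ⟨x, rfl⟩ := hHb.2 y
      obtain ⟨x', rfl⟩ := hHb.2 y'
      exact (hHF _ _).1 (hE.equiv.symm ((hHF _ _).2 h))
    · obtain ⟨x, rfl⟩ := hHb.2 y
      obtain ⟨x', rfl⟩ := hHb.2 y'
      obtain ⟨x'', rfl⟩ := hHb.2 y''
      exact (hHF _ _).1 (hE.equiv.trans ((hHF _ _).2 h) ((hHF _ _).2 h'))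
  have hcl : {y | F (H c.x0) y} = H '' {x | E c.x0 x} := by
    ext y
    obtain ⟨x, rfl⟩ := hHb.2 y
    rw [hHb.1.mem_set_image]
    exact (hHF _ _).symm
  let fl : ℕ → Finset ℕ → c.YS → c.YS := fun k a y =>
    c.mvY k (fun j => xor (y.1.2 j) (decide (j ∈ a))) y
  have hfl : ∀ k a, IsProperMap (fl k a) := by
    intro k a
    refine proper_of_invol ((c.mvY_cont k).comp (Continuous.prodMk ?_ continuous_id)) fun y => ?_
    · exact continuous_pi fun j => (continuous_of_discreteTopology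
        (f := fun b : Bool => xor b (decide (j ∈ a)))).comp (by fun_prop)
    · refine (c.DY.a2 k k _ _ y le_rfl).trans (c.DY.mv_self fun j hj => ?_)
      simp only [fl, Ctx.mvY_snd, if_pos hj]
      show _ = y.1.2 j
      cases y.1.2 j <;> cases decide (j ∈ a) <;> rfl
  let Cs : ℕ → ℕ → Set X := fun k i => {x | x ∈ c.Gd k ∧ g i x ∈ c.Gd k}
  have hCp : ∀ k i, IsProperMap fun x : Cs k i => c.φ x := by
    intro k i
    refine (c.φ_proper k).comp (f := inclusion (fun x hx => hx.1 : Cs k i ⊆ c.Gd k))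
      (IsClosedEmbedding.inclusion _ ?_).isProperMap
    exact ((c.gd_closed k).inter ((c.gd_closed k).preimage (hgc i))).preimage
      continuous_subtype_val
  have hCq : ∀ k i, IsProperMap fun x : Cs k i => c.φ (g i x) := by
    intro k i
    refine (hCp k i).comp (f := fun x : Cs k i =>
      (⟨g i x, x.2.2, by rw [hgi]; exact x.2.1⟩ : Cs k i)) (proper_of_invol ?_ fun x => ?_)
    · exact ((hgc i).comp continuous_subtype_val).subtype_mk _
    · exact Subtype.ext (hgi i x)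
  let P : (ℕ × ℕ) ⊕ (ℕ × Finset ℕ) → Set (c.YS × c.YS) := fun i => match i with
    | Sum.inl (k, i) => range fun x : Cs k i => (c.φ x, c.φ (g i x))
    | Sum.inr (k, a) => range fun y => (id y, fl k a y)
  have hP : {p : c.YS × c.YS | F p.1 p.2} = ⋃ i, P i := by
    ext ⟨y, y'⟩
    simp only [mem_setOf_eq, mem_iUnion]
    constructor
    · rintro (⟨x, x', h, rfl, rfl⟩ | h)
      · obtain ⟨i, rfl⟩ := (hgE _ _).1 h
        obtain ⟨k, hk⟩ := c.good x
        obtain ⟨l, hl⟩ := c.good (g i x)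
        exact ⟨Sum.inl (max k l, i), ⟨x, c.gd_mono (le_max_left _ _) hk,
          c.gd_mono (le_max_right _ _) hl⟩, rfl⟩
      · obtain ⟨k, hk⟩ := c.R_mv h
        refine ⟨Sum.inr (k, (Finset.range (hh k)).filter fun j => y.1.2 j ≠ y'.1.2 j), y,
          Prod.ext rfl (Eq.trans (c.DY.a4 _ _ _ _ fun j hj => ?_) hk)⟩
        simp only [Finset.mem_filter, Finset.mem_range, hj, true_and]
        cases y.1.2 j <;> cases y'.1.2 j <;> simp
    · rintro ⟨⟨k, i⟩ | ⟨k, a⟩, z, hz⟩
      · obtain ⟨h1, h2⟩ := Prod.ext_iff.1 hz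
        exact Or.inl ⟨z, g i z, (hgE _ _).2 ⟨i, rfl⟩, h1, h2⟩
      · obtain ⟨h1, h2⟩ := Prod.ext_iff.1 hz
        simp only [id] at h1 h2
        rw [← h1, ← h2]
        exact Or.inr (c.DY.a5 _ _ _)
  obtain ⟨K, tK, pK, cK, mK, bK, F', h, q1, q2, q3, q4, q5, q6⟩ := compactify he hFe
    (fun y => (c.R_dense y).mono fun y' hy' => Or.inr hy') (H c.x0)
    (hcl ▸ (hE.countable _).image H) (hcl ▸ (hE.infinite _).image hHb.1.injOn) P hP
    (by
      rintro (⟨k, i⟩ | ⟨k, a⟩)
      · exact (proper_range (hCp k i) (hCq k i)).1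
      · exact (proper_range isProperMap_id (hfl k a)).1)
    (by
      rintro (⟨k, i⟩ | ⟨k, a⟩)
      · exact (proper_range (hCp k i) (hCq k i)).2
      · exact (proper_range isProperMap_id (hfl k a)).2)
  exact ⟨K, tK, pK, cK, mK, bK, F', q1, iso_of_bij (h ∘ H) (q2.comp hH) (q3.comp hHb)
    fun x x' => (hHF x x').trans (q4 _ _), q5, q6⟩

end Pool.Agent.H244Z.CB
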